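import Pool.Agent.Lib.MP_0d8f30_al.BV.Def

set_option autoImplicit false

/-! # Task A3: integrality -/

namespace Pool.Agent.Bovdi

open Finset

variable {G : Type} [Group G]

theorem toQ_apply (b : MonoidAlgebra ℤ G) (g : G) : (toQ G b).coeff g = (b.coeff g : ℚ) := by
  rw [toQ, MonoidAlgebra.coeff_mapRingHom]
  rfl

theorem toQ_injective : Function.Injective (toQ G) := by
  intro a b hab
  apply MonoidAlgebra.ext
  ext g
  have h := toQ_apply a g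
  rw [hab, toQ_apply] at h
  exact_mod_cast h.symm

private theorem a03_natSmul (d : ℕ) (b : MonoidAlgebra ℤ G) :
    (d : ℚ) • toQ G b = toQ G ((d : ℤ) • b) := by
  rw [map_zsmul, ← Int.cast_smul_eq_zsmul ℚ]
  simp

private theorem a03_intSmul (d : ℤ) (b : MonoidAlgebra ℤ G) :
    (d : ℚ) • toQ G b = toQ G (d • b) := by
  rw [map_zsmul, ← Int.cast_smul_eq_zsmul ℚ]

private theorem a03_el (g : G) : toQ G (MonoidAlgebra.single g 1) = el g := by
  apply MonoidAlgebra.ext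
  ext h
  rw [toQ_apply]
  classical
  simp only [el, MonoidAlgebra.of_apply, MonoidAlgebra.coeff_single, Finsupp.single_apply]
  split_ifs <;> simp

theorem int2_zero : Int2 (0 : MonoidAlgebra ℚ G) := ⟨1, odd_one, 0, by simp⟩
theorem int2_one : Int2 (1 : MonoidAlgebra ℚ G) := ⟨1, odd_one, 1, by simp⟩
theorem int2_el (g : G) : Int2 (el g) :=
  ⟨1, odd_one, MonoidAlgebra.single g 1, by rw [a03_el, Nat.cast_one, one_smul]⟩
theorem int2_add {a b : MonoidAlgebra ℚ G} (ha : Int2 a) (hb : Int2 b) : Int2 (a + b) := by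
  obtain ⟨d, hd, x, hx⟩ := ha
  obtain ⟨e, he, y, hy⟩ := hb
  refine ⟨d * e, hd.mul he, (e : ℤ) • x + (d : ℤ) • y, ?_⟩
  rw [map_add, ← a03_natSmul, ← a03_natSmul, ← hx, ← hy, smul_smul, smul_smul, smul_add,
    Nat.cast_mul, mul_comm (e : ℚ) (d : ℚ)]
theorem int2_sub {a b : MonoidAlgebra ℚ G} (ha : Int2 a) (hb : Int2 b) : Int2 (a - b) := by
  obtain ⟨d, hd, x, hx⟩ := ha
  obtain ⟨e, he, y, hy⟩ := hb
  refine ⟨d * e, hd.mul he, (e : ℤ) • x - (d : ℤ) • y, ?_⟩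
  rw [map_sub, ← a03_natSmul, ← a03_natSmul, ← hx, ← hy, smul_smul, smul_smul, smul_sub,
    Nat.cast_mul, mul_comm (e : ℚ) (d : ℚ)]
theorem int2_mul {a b : MonoidAlgebra ℚ G} (ha : Int2 a) (hb : Int2 b) : Int2 (a * b) := by
  obtain ⟨d, hd, x, hx⟩ := ha
  obtain ⟨e, he, y, hy⟩ := hb
  refine ⟨d * e, hd.mul he, x * y, ?_⟩
  rw [map_mul, ← hx, ← hy, smul_mul_smul_comm, Nat.cast_mul]
theorem int2_sum {ι : Type*} (s : Finset ι) (a : ι → MonoidAlgebra ℚ G) (h : ∀ i ∈ s, Int2 (a i)) :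
    Int2 (∑ i ∈ s, a i) :=
  Finset.sum_induction _ _ (fun _ _ => int2_add) int2_zero h
theorem int2_zsmul {a : MonoidAlgebra ℚ G} (k : ℤ) (ha : Int2 a) : Int2 ((k : ℚ) • a) := by
  obtain ⟨d, hd, x, hx⟩ := ha
  refine ⟨d, hd, k • x, ?_⟩
  rw [← a03_intSmul, ← hx, smul_comm]
theorem int2_inv_smul {a : MonoidAlgebra ℚ G} (d : ℕ) (hd : Odd d) (ha : Int2 a) :
    Int2 ((d : ℚ)⁻¹ • a) := by
  obtain ⟨e, he, x, hx⟩ := ha
  refine ⟨d * e, hd.mul he, x, ?_⟩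
  have hd0 : (d : ℚ) ≠ 0 := by
    have := hd.pos
    exact_mod_cast this.ne'
  rw [← hx, smul_smul]
  congr 1
  push_cast
  field_simp
theorem int2_avg [Fintype G] (H : Subgroup G) (h : Odd (Nat.card H)) : Int2 (avg H) := by
  unfold avg
  exact int2_inv_smul _ h (int2_sum _ _ (fun i _ => int2_el i))

theorem int3_zero : Int3 (0 : MonoidAlgebra ℚ G) := ⟨0, 0, by simp⟩
theorem int3_one : Int3 (1 : MonoidAlgebra ℚ G) := ⟨0, 1, by simp⟩
theorem int3_el (g : G) : Int3 (el g) :=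
  ⟨0, MonoidAlgebra.single g 1, by rw [a03_el, pow_zero, one_smul]⟩

private theorem a03_powSmul (k : ℕ) (b : MonoidAlgebra ℤ G) :
    ((2 : ℚ) ^ k) • toQ G b = toQ G (((2 : ℤ) ^ k) • b) := by
  rw [← a03_intSmul]
  push_cast
  rfl

theorem int3_add {a b : MonoidAlgebra ℚ G} (ha : Int3 a) (hb : Int3 b) : Int3 (a + b) := by
  obtain ⟨d, x, hx⟩ := ha
  obtain ⟨e, y, hy⟩ := hb
  refine ⟨d + e, ((2 : ℤ) ^ e) • x + ((2 : ℤ) ^ d) • y, ?_⟩
  rw [map_add, ← a03_powSmul, ← a03_powSmul, ← hx, ← hy, smul_smul, smul_smul, smul_add,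
    pow_add, mul_comm ((2 : ℚ) ^ e) ((2 : ℚ) ^ d)]
theorem int3_sub {a b : MonoidAlgebra ℚ G} (ha : Int3 a) (hb : Int3 b) : Int3 (a - b) := by
  obtain ⟨d, x, hx⟩ := ha
  obtain ⟨e, y, hy⟩ := hb
  refine ⟨d + e, ((2 : ℤ) ^ e) • x - ((2 : ℤ) ^ d) • y, ?_⟩
  rw [map_sub, ← a03_powSmul, ← a03_powSmul, ← hx, ← hy, smul_smul, smul_smul, smul_sub,
    pow_add, mul_comm ((2 : ℚ) ^ e) ((2 : ℚ) ^ d)]
theorem int3_mul {a b : MonoidAlgebra ℚ G} (ha : Int3 a) (hb : Int3 b) : Int3 (a * b) := by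
  obtain ⟨d, x, hx⟩ := ha
  obtain ⟨e, y, hy⟩ := hb
  refine ⟨d + e, x * y, ?_⟩
  rw [map_mul, ← hx, ← hy, smul_mul_smul_comm, pow_add]
theorem int3_sum {ι : Type*} (s : Finset ι) (a : ι → MonoidAlgebra ℚ G) (h : ∀ i ∈ s, Int3 (a i)) :
    Int3 (∑ i ∈ s, a i) :=
  Finset.sum_induction _ _ (fun _ _ => int3_add) int3_zero h
theorem int3_zsmul {a : MonoidAlgebra ℚ G} (k : ℤ) (ha : Int3 a) : Int3 ((k : ℚ) • a) := by
  obtain ⟨d, x, hx⟩ := ha
  refine ⟨d, k • x, ?_⟩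
  rw [← a03_intSmul, ← hx, smul_comm]
theorem int3_inv_smul {a : MonoidAlgebra ℚ G} (k : ℕ) (ha : Int3 a) :
    Int3 (((2 : ℚ) ^ k)⁻¹ • a) := by
  obtain ⟨e, x, hx⟩ := ha
  refine ⟨k + e, x, ?_⟩
  rw [← hx, smul_smul]
  congr 1
  rw [pow_add]
  field_simp
theorem int3_avg [Fintype G] (H : Subgroup G) (h : ∃ k : ℕ, Nat.card H = 2 ^ k) : Int3 (avg H) := by
  obtain ⟨k, hk⟩ := h
  unfold avg
  rw [hk]
  push_cast
  exact int3_inv_smul _ (int3_sum _ _ (fun i _ => int3_el i))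

/-- integral at 2 and outside 2: integral (Bezout for an odd number and a power of 2) -/
theorem int_of_both {a : MonoidAlgebra ℚ G} (h2 : Int2 a) (h3 : Int3 a) :
    ∃ b : MonoidAlgebra ℤ G, toQ G b = a := by
  obtain ⟨d, hd, x, hx⟩ := h2
  obtain ⟨k, y, hy⟩ := h3
  have hco : IsCoprime (d : ℤ) ((2 : ℤ) ^ k) := by
    apply IsCoprime.pow_right
    have : Nat.Coprime d 2 := (Nat.coprime_two_right).2 hd
    exact_mod_cast Nat.isCoprime_iff_coprime.2 this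
  obtain ⟨u, v, huv⟩ := hco
  refine ⟨u • x + v • y, ?_⟩
  rw [map_add, ← a03_intSmul, ← a03_intSmul, ← hx, ← hy, smul_smul, smul_smul, ← add_smul]
  have : (u : ℚ) * (d : ℚ) + (v : ℚ) * (2 : ℚ) ^ k = 1 := by
    exact_mod_cast huv
  rw [this, one_smul]

/-- every element has a common denominator `2 ^ k * d`, `d` odd -/
theorem exists_common_den (a : MonoidAlgebra ℚ G) :
    ∃ (k d : ℕ) (b : MonoidAlgebra ℤ G), Odd d ∧ ((2 : ℚ) ^ k * d) • a = toQ G b := by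
  induction a using MonoidAlgebra.induction_linear with
  | zero => exact ⟨0, 1, 0, odd_one, by simp⟩
  | add x y hx hy =>
    obtain ⟨k, d, b, hd, hb⟩ := hx
    obtain ⟨l, e, c, he, hc⟩ := hy
    refine ⟨k + l, d * e, ((2 : ℤ) ^ l * (e : ℤ)) • b + ((2 : ℤ) ^ k * (d : ℤ)) • c,
      hd.mul he, ?_⟩
    rw [map_add, ← a03_intSmul, ← a03_intSmul, ← hb, ← hc, smul_smul, smul_smul, smul_add]
    congr 2
    · push_cast
      ring
    · push_cast
      ring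
  | single g r =>
    obtain ⟨k, m, hm, hk⟩ := Nat.exists_eq_two_pow_mul_odd r.den_nz
    refine ⟨k, m, MonoidAlgebra.single g r.num, hm, ?_⟩
    have h1 : ((2 : ℚ) ^ k * m) = (r.den : ℚ) := by
      rw [hk]
      push_cast
      rfl
    rw [h1]
    apply MonoidAlgebra.ext
    ext h
    rw [toQ_apply]
    classical
    simp only [MonoidAlgebra.coeff_smul, MonoidAlgebra.coeff_single, Finsupp.coe_smul,
      Pi.smul_apply, Finsupp.single_apply, smul_eq_mul]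
    split_ifs
    · exact Rat.den_mul_eq_num r
    · simp

end Pool.Agent.Bovdi
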