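import Mathlib

set_option autoImplicit false

/-! # Bovdi's problem: definitions

Section numbers refer to the paper proof (MP_0d8f30_PAPER.md).  `el g` is the group element `g` in `ℚG`,
`Eqv a b` (written `a ~ b` in comments): `a - b` lies in the span of the additive commutators. -/

namespace Pool.Agent.Bovdi

open Finset

/-- the ℚ-span of the additive commutators of a ℚ-algebra -/
def K (A : Type*) [Ring A] [Algebra ℚ A] : Submodule ℚ A :=
  Submodule.span ℚ {c | ∃ a b : A, c = a * b - b * a}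

/-- `a ~ b`: the difference is a linear combination of commutators -/
def Eqv {A : Type*} [Ring A] [Algebra ℚ A] (a b : A) : Prop := a - b ∈ K A

/-- the group element `g` as an element of `ℚG` -/
noncomputable abbrev el {G : Type} [Group G] : G →* MonoidAlgebra ℚ G := MonoidAlgebra.of ℚ G

/-- the inclusion `ℤG → ℚG` -/
noncomputable abbrev toQ (G : Type) [Group G] : MonoidAlgebra ℤ G →+* MonoidAlgebra ℚ G :=
  MonoidAlgebra.mapRingHom G (Int.castRingHom ℚ)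

/-- integral at `2`: an odd multiple lies in `ℤG` -/
def Int2 {G : Type} [Group G] (a : MonoidAlgebra ℚ G) : Prop :=
  ∃ d : ℕ, Odd d ∧ ∃ b : MonoidAlgebra ℤ G, (d : ℚ) • a = toQ G b

/-- integral outside `2`: a multiple by a power of `2` lies in `ℤG` -/
def Int3 {G : Type} [Group G] (a : MonoidAlgebra ℚ G) : Prop :=
  ∃ k : ℕ, ∃ b : MonoidAlgebra ℤ G, ((2 : ℚ) ^ k) • a = toQ G b

open Classical in
/-- the average of the elements of a subgroup of a finite group -/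
noncomputable def avg {G : Type} [Group G] [Fintype G] (H : Subgroup G) : MonoidAlgebra ℚ G :=
  (Nat.card H : ℚ)⁻¹ • ∑ g ∈ (univ : Finset G).filter (fun g => g ∈ H), el g

/-- the data of section 0 -/
structure Dat (G : Type) [Group G] (n : ℕ) where
  /-- generator of the cyclic group -/
  s : G
  w : G
  v : G
  /-- element of order 3 in the coordinate 0 -/
  x : G
  /-- the group `C₃ⁿ` -/
  N : Subgroup G
  /-- the elements of `N` with trivial coordinate 0 -/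
  N' : Subgroup G
  /-- generated by the `w_j`, `j ≠ 0` -/
  W' : Subgroup G
  npos : 0 < n
  ord : orderOf s = 2 * n
  w1 : w ≠ 1
  ww : w * w = 1
  vv : v * v = 1
  vw : v * w = w * v
  zw : s ^ n * w = w * s ^ n
  zv : s ^ n * v = w * v * s ^ n
  x3 : x ^ 3 = 1
  xw : x * w = v * x
  xv : x * v = w * v * x
  xN : x ∈ N
  N'N : N' ≤ N
  comN : ∀ a ∈ N, ∀ b ∈ N, a * b = b * a
  expN : ∀ a ∈ N, a ^ 3 = 1
  zN : ∀ a ∈ N, s ^ n * a = a⁻¹ * s ^ n
  sN : ∀ a ∈ N, s * a * s⁻¹ ∈ N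
  N'x : ∀ a ∈ N, ∃ b ∈ N', ∃ k : ℕ, a = b * x ^ k
  comN' : ∀ a ∈ N', a * w = w * a ∧ a * v = v * a
  N's : ∀ j : ℕ, 0 < j → j < n → ∀ a ∈ N, ∃ b ∈ N', ∃ c ∈ N', a = b * (s ^ j * c * (s ^ j)⁻¹)
  comW : ∀ a ∈ W', a * w = w * a ∧ a * v = v * a ∧ a * x = x * a ∧ a * s ^ n = s ^ n * a
  W's : ∀ j : ℕ, 0 < j → j < n → s ^ j * w * (s ^ j)⁻¹ ∈ W'
  W'q : ∀ a ∈ W', ∃ q : G, q * w = w * q ∧ q * v = v * q ∧ q * s ^ n = a * s ^ n * q
  oddN : Odd (Nat.card N)
  oddN' : Odd (Nat.card N')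
  cardW : ∃ k : ℕ, Nat.card W' = 2 ^ k
  comm : ∀ a b : G, a * b * a⁻¹ * b⁻¹ ∈ Subgroup.normalClosure (N : Set G)

namespace Dat

variable {G : Type} [Group G] {n : ℕ} (D : Dat G n)

/-- the element `z = sⁿ` in `ℚG` -/
noncomputable def z : MonoidAlgebra ℚ G := el (D.s ^ n)

/-- the idempotent of the character of `{1,w,v,wv}` with kernel `{1,w}` -/
noncomputable def lam : MonoidAlgebra ℚ G :=
  (1 / 4 : ℚ) • (1 + el D.w - el D.v - el (D.w * D.v))

/-- the average of `{1,w,v,wv}` -/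
noncomputable def aV : MonoidAlgebra ℚ G :=
  (1 / 4 : ℚ) • (1 + el D.w + el D.v + el (D.w * D.v))

/-- `δ` of section 1 -/
noncomputable def del : MonoidAlgebra ℚ G :=
  ∑ k ∈ range 3, el (D.x ^ k) * (D.lam * D.z) * el (D.x ^ k)⁻¹

/-- the matrix sum `Φ_κ(X)` of section 1 -/
noncomputable def Phi (κ : MonoidAlgebra ℚ G) (X : Matrix (Fin n) (Fin n) ℚ) :
    MonoidAlgebra ℚ G :=
  ∑ i : Fin n, ∑ j : Fin n, X i j • (el (D.s ^ (i : ℕ)) * κ * el (D.s ^ (j : ℕ))⁻¹)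

/-- `e'` of section 2 -/
noncomputable def lam' : MonoidAlgebra ℚ G := el D.x⁻¹ * D.lam * el D.x

/-- `z'` of section 2 -/
noncomputable def z' : MonoidAlgebra ℚ G := el D.x⁻¹ * D.z * el D.x

/-- `E_±` (section 2) for `o` and `s₀ = s ^ h` -/
noncomputable def Eb (h o : ℕ) (ε : ℚ) : MonoidAlgebra ℚ G :=
  (1 / (o : ℚ)) • ∑ i ∈ range o, ε ^ i • el (D.s ^ (h * i))

variable [Fintype G]

/-- `f = avg N' - avg N` -/
noncomputable def f : MonoidAlgebra ℚ G := avg D.N' - avg D.N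

/-- `κ₀` -/
noncomputable def kz : MonoidAlgebra ℚ G := D.f * D.aV

/-- `κ₊` -/
noncomputable def kp : MonoidAlgebra ℚ G := (1 / 2 : ℚ) • (D.f * (1 - D.aV + D.del))

/-- `κ₋` -/
noncomputable def km : MonoidAlgebra ℚ G := (1 / 2 : ℚ) • (D.f * (1 - D.aV - D.del))

/-- `e_Θ = Σ s^j f s^-j` -/
noncomputable def eT : MonoidAlgebra ℚ G :=
  ∑ j ∈ range n, el (D.s ^ j) * D.f * el (D.s ^ j)⁻¹

/-- `E'_±` of section 2, `ε = ±1` -/
noncomputable def E (ε : ℚ) : MonoidAlgebra ℚ G :=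
  D.lam' * avg D.W' * ((1 / 2 : ℚ) • (1 + ε • D.z'))

/-- `Ξ_±` of section 2 -/
noncomputable def Xi (h r : ℕ) (ε : ℚ) : MonoidAlgebra ℚ G :=
  ∑ l ∈ (range (2 * n)).filter (fun l => l % h < 2 * r), el (D.s ^ l)⁻¹ * D.E ε * el (D.s ^ l)

/-- `a = E_- Ξ_+` -/
noncomputable def a (h o r : ℕ) : MonoidAlgebra ℚ G := D.Eb h o (-1) * D.Xi h r 1

/-- `b = E_+ Ξ_-` -/
noncomputable def b (h o r : ℕ) : MonoidAlgebra ℚ G := D.Eb h o 1 * D.Xi h r (-1)

/-- the 3-adic form `u₃ = s₀(1 - 2a - 2b)` -/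
noncomputable def u3 (h o r : ℕ) : MonoidAlgebra ℚ G :=
  el (D.s ^ h) * (1 - (2 : ℚ) • D.a h o r - (2 : ℚ) • D.b h o r)

/-- the 2-adic form `u₂` for three matrices -/
noncomputable def u2 (h : ℕ) (W0 Wp Wm : Matrix (Fin n) (Fin n) ℚ) : MonoidAlgebra ℚ G :=
  el (D.s ^ h) * (1 - D.eT) + (D.Phi D.kz W0 + D.Phi D.kp Wp + D.Phi D.km Wm)

end Dat

/-- the property of Lemma 2 -/
def UD (R : Type*) [Ring R] : Prop :=
  ∀ e : R, e * e = e → (∀ I : TwoSidedIdeal R, e ∈ I → (1 : R) ∈ I) → ∀ h : Rˣ,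
    ∃ (l : List R) (c : Rˣ), (∀ a ∈ l, a * a = 0) ∧
      (h : R) = (l.map (fun a => 1 + a)).prod * c ∧ (c : R) = (1 - e) + e * c * e

/-- `t ↦ F t` is a polynomial with coefficients in `A` -/
def PolyPath {A : Type*} [Ring A] [Algebra ℚ A] (F : ℚ → A) : Prop :=
  ∃ (q : ℕ) (c : ℕ → A), ∀ t : ℚ, F t = ∑ i ∈ range q, t ^ i • c i

/-- the path of section 5 -/
noncomputable def path {A : Type*} [Ring A] [Algebra ℚ A] (l : List A) (u : A) (t : ℚ) : A :=
  (l.map (fun a => 1 + t • a)).prod * u * (l.reverse.map (fun a => 1 - t • a)).prod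

end Pool.Agent.Bovdi
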