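import Pool.Agent.Lib.MP_0d8f30_al.Mg.G003
import Pool.Agent.Lib.MP_0d8f30_al.Mg.G001

set_option autoImplicit false

/-! # Task R3: commutation with the averages of `N'` and `N`, the idempotent `f` -/

namespace Pool.Agent.Bovdi

open Finset

variable {G : Type} [Group G] [Fintype G] {n : ℕ} (D : Dat G n)

private theorem r3_xk_mem (k : ℕ) : D.x ^ k ∈ D.N := D.N.pow_mem D.xN k

private theorem r3_avgN'_w : Commute (avg D.N') (el D.w) :=
  (el_avg_of_comm D.N' D.w fun a ha => (D.comN' a ha).1.symm).symm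

private theorem r3_avgN'_v : Commute (avg D.N') (el D.v) :=
  (el_avg_of_comm D.N' D.v fun a ha => (D.comN' a ha).2.symm).symm

private theorem r3_avgN'_N {g : G} (hg : g ∈ D.N) : Commute (avg D.N') (el g) :=
  (el_avg_of_comm D.N' g fun a ha => D.comN g hg a (D.N'N ha)).symm

private theorem r3_comm_lam {e : MonoidAlgebra ℚ G} (hw : Commute e (el D.w))
    (hv : Commute e (el D.v)) : Commute e D.lam := by
  rw [Dat.lam, map_mul]
  exact ((((Commute.one_right e).add_right hw).sub_right hv).sub_right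
    (hw.mul_right hv)).smul_right _

private theorem r3_comm_aV {e : MonoidAlgebra ℚ G} (hw : Commute e (el D.w))
    (hv : Commute e (el D.v)) : Commute e D.aV := by
  rw [Dat.aV, map_mul]
  exact ((((Commute.one_right e).add_right hw).add_right hv).add_right
    (hw.mul_right hv)).smul_right _

private theorem r3_avgN'_lam : Commute (avg D.N') D.lam :=
  r3_comm_lam D (r3_avgN'_w D) (r3_avgN'_v D)

private theorem r3_avgN'_z : Commute (avg D.N') D.z := by
  refine (el_avg_of_normalize D.N' (D.s ^ n) fun a ha => ?_).symm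
  rw [D.zN a (D.N'N ha), mul_inv_cancel_right]
  exact D.N'.inv_mem ha

private theorem r3_avgN'_del : Commute (avg D.N') D.del := by
  rw [Dat.del]
  refine Commute.sum_right _ _ _ fun k _ => ?_
  exact ((r3_avgN'_N D (r3_xk_mem D k)).mul_right
    ((r3_avgN'_lam D).mul_right (r3_avgN'_z D))).mul_right
    (r3_avgN'_N D (D.N.inv_mem (r3_xk_mem D k)))

private theorem r3_x_aV : Commute (el D.x) D.aV := D.x_aV

private theorem r3_x_del : Commute (el D.x) D.del := D.x_del

private theorem r3_avgN_comm {y : MonoidAlgebra ℚ G} (h1 : Commute (avg D.N') y)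
    (h2 : Commute (el D.x) y) : Commute (avg D.N) y := by
  rw [avg_eq_of_prod_three D.N'N D.xN D.x3 D.comN D.N'x]
  refine h1.mul_left ((Commute.sum_left _ _ _ fun k _ => ?_).smul_left _)
  rw [map_pow]
  exact h2.pow_left k

private theorem r3_s_norm (j : ℕ) : ∀ a ∈ D.N, D.s ^ j * a * (D.s ^ j)⁻¹ ∈ D.N := by
  induction j with
  | zero =>
    intro a ha
    rwa [pow_zero, one_mul, inv_one, mul_one]
  | succ j ih =>
    intro a ha
    have h := D.sN _ (ih a ha)
    have e : D.s ^ (j + 1) * a * (D.s ^ (j + 1))⁻¹ =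
        D.s * (D.s ^ j * a * (D.s ^ j)⁻¹) * D.s⁻¹ := by
      rw [pow_succ', mul_inv_rev]
      simp only [mul_assoc]
    rw [e]
    exact h

theorem Dat.avgN'_lam : avg D.N' * D.lam = D.lam * avg D.N' := r3_avgN'_lam D
theorem Dat.avgN'_aV : avg D.N' * D.aV = D.aV * avg D.N' := r3_comm_aV D (r3_avgN'_w D) (r3_avgN'_v D)
theorem Dat.avgN'_x : avg D.N' * el D.x = el D.x * avg D.N' := r3_avgN'_N D D.xN
theorem Dat.avgN'_z : avg D.N' * D.z = D.z * avg D.N' := r3_avgN'_z D
theorem Dat.avgN_z : avg D.N * D.z = D.z * avg D.N := by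
  refine (el_avg_of_normalize D.N (D.s ^ n) fun a ha => ?_).symm
  rw [D.zN a ha, mul_inv_cancel_right]
  exact D.N.inv_mem ha
theorem Dat.avgN_x : avg D.N * el D.x = avg D.N := avg_mul_el D.N D.xN
theorem Dat.x_avgN : el D.x * avg D.N = avg D.N := el_mul_avg D.N D.xN
/-- `s` normalizes `N` -/
theorem Dat.avgN_s (j : ℕ) : avg D.N * el (D.s ^ j) = el (D.s ^ j) * avg D.N := (el_avg_of_normalize D.N (D.s ^ j) (r3_s_norm D j)).symm
theorem Dat.avgN'_avgN : avg D.N' * avg D.N = avg D.N := avg_mul_avg_of_le D.N'N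
theorem Dat.avgN_avgN' : avg D.N * avg D.N' = avg D.N := avg_mul_avg_of_ge D.N'N
theorem Dat.avgN_eq : avg D.N = avg D.N' * ((1 / 3 : ℚ) • ∑ k ∈ range 3, el (D.x ^ k)) := avg_eq_of_prod_three D.N'N D.xN D.x3 D.comN D.N'x
theorem Dat.avgN'_del : avg D.N' * D.del = D.del * avg D.N' := r3_avgN'_del D
/-- by `avgN_eq`, `avgN'_del`, `x_del` -/
theorem Dat.avgN_del : avg D.N * D.del = D.del * avg D.N := r3_avgN_comm D (r3_avgN'_del D) (r3_x_del D)
theorem Dat.avgN_aV : avg D.N * D.aV = D.aV * avg D.N := r3_avgN_comm D (r3_comm_aV D (r3_avgN'_w D) (r3_avgN'_v D)) (r3_x_aV D)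
theorem Dat.f_idem : D.f * D.f = D.f := by
  rw [Dat.f, sub_mul, mul_sub, mul_sub, avg_idem, avg_idem, D.avgN'_avgN, D.avgN_avgN']
  abel
theorem Dat.f_aV : D.f * D.aV = D.aV * D.f := by
  rw [Dat.f, sub_mul, mul_sub, D.avgN'_aV, D.avgN_aV]
theorem Dat.f_del : D.f * D.del = D.del * D.f := by
  rw [Dat.f, sub_mul, mul_sub, D.avgN'_del, D.avgN_del]
theorem Dat.f_z : D.f * D.z = D.z * D.f := by
  rw [Dat.f, sub_mul, mul_sub, D.avgN'_z, D.avgN_z]
theorem Dat.f_x : D.f * el D.x = el D.x * D.f := by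
  rw [Dat.f, sub_mul, mul_sub, D.avgN'_x, D.avgN_x, D.x_avgN]
/-- `f_{j+n} = f_j` in the form: `s^(j+n) f s^-(j+n) = s^j f s^-j` -/
theorem Dat.conj_add_n (j : ℕ) :
    el (D.s ^ (j + n)) * D.f * el (D.s ^ (j + n))⁻¹ = el (D.s ^ j) * D.f * el (D.s ^ j)⁻¹ := by
  have h1 : el (D.s ^ n) * D.f * el (D.s ^ n)⁻¹ = D.f := by
    have h := D.f_z
    rw [Dat.z] at h
    rw [← h, mul_assoc, ← map_mul, mul_inv_cancel, map_one, mul_one]
  calc el (D.s ^ (j + n)) * D.f * el (D.s ^ (j + n))⁻¹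
      = el (D.s ^ j) * (el (D.s ^ n) * D.f * el (D.s ^ n)⁻¹) * el (D.s ^ j)⁻¹ := by
        rw [pow_add, mul_inv_rev, map_mul, map_mul]
        simp only [mul_assoc]
    _ = _ := by rw [h1]

end Pool.Agent.Bovdi
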