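import Pool.Agent.Lib.MP_0d8f30_al.BV.X2
import Pool.Agent.Lib.MP_0d8f30_al.BV.R3

set_option autoImplicit false

/-! # Task F1: the idempotent of the fixed vectors of `u₃` -/

namespace Pool.Agent.Bovdi

open Finset

variable {G : Type} [Group G] [Fintype G] {n : ℕ} (D : Dat G n)

/-- `e = (1/o) ∑ u₃^k` -/
noncomputable def Dat.e0 (h o r : ℕ) : MonoidAlgebra ℚ G := (1 / (o : ℚ)) • ∑ k ∈ range o, (D.u3 h o r) ^ k

private theorem f1_mul_geom {A : Type*} [Ring A] (u : A) (o : ℕ) (hu : u ^ o = 1) :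
    u * ∑ k ∈ range o, u ^ k = ∑ k ∈ range o, u ^ k := by
  have h1 : u * ∑ k ∈ range o, u ^ k = ∑ k ∈ range o, u ^ (k + 1) := by
    rw [mul_sum]
    exact sum_congr rfl fun k _ => (pow_succ' u k).symm
  have h2 := sum_range_succ (fun k => u ^ k) o
  have h3 := sum_range_succ' (fun k => u ^ k) o
  rw [h2, hu, pow_zero] at h3
  rw [h1]
  exact (add_right_cancel h3).symm

private theorem f1_geom_mul {A : Type*} [Ring A] (u : A) (o : ℕ) (hu : u ^ o = 1) :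
    (∑ k ∈ range o, u ^ k) * u = ∑ k ∈ range o, u ^ k := by
  have h1 : (∑ k ∈ range o, u ^ k) * u = ∑ k ∈ range o, u ^ (k + 1) := by
    rw [sum_mul]
    exact sum_congr rfl fun k _ => (pow_succ u k).symm
  have h2 := sum_range_succ (fun k => u ^ k) o
  have h3 := sum_range_succ' (fun k => u ^ k) o
  rw [h2, hu, pow_zero] at h3
  rw [h1]
  exact (add_right_cancel h3).symm

theorem Dat.u3_e0 (h o r : ℕ) (ho : h * o = 2 * n) (he : Even o) (h0 : 0 < o) : D.u3 h o r * D.e0 h o r = D.e0 h o r := by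
  rw [Dat.e0, mul_smul_comm, f1_mul_geom _ _ (D.u3_pow_eq_one h o r ho he)]

theorem Dat.e0_u3 (h o r : ℕ) (ho : h * o = 2 * n) (he : Even o) (h0 : 0 < o) : D.e0 h o r * D.u3 h o r = D.e0 h o r := by
  rw [Dat.e0, smul_mul_assoc, f1_geom_mul _ _ (D.u3_pow_eq_one h o r ho he)]

theorem Dat.e0_idem (h o r : ℕ) (ho : h * o = 2 * n) (he : Even o) (h0 : 0 < o) : D.e0 h o r * D.e0 h o r = D.e0 h o r := by
  have hk : ∀ k : ℕ, (D.u3 h o r) ^ k * D.e0 h o r = D.e0 h o r := by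
    intro k
    induction k with
    | zero => rw [pow_zero, one_mul]
    | succ k ih => rw [pow_succ, mul_assoc, D.u3_e0 h o r ho he h0, ih]
  conv_lhs => rw [Dat.e0]
  rw [smul_mul_assoc, sum_mul]
  have h2 : ∀ k ∈ range o, (D.u3 h o r) ^ k * ((1 / (o : ℚ)) • ∑ k ∈ range o, (D.u3 h o r) ^ k) = D.e0 h o r :=
    fun k _ => hk k
  rw [sum_congr rfl h2, sum_const, card_range, ← Nat.cast_smul_eq_nsmul ℚ, smul_smul,
    one_div, inv_mul_cancel₀ (Nat.cast_ne_zero.2 h0.ne'), one_smul]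

/-- `q = s^-l E_ε s^l` with `l` outside the index set: `a q = b q = 0`, so `u₃^k q = s₀^k q` (induction) and `e q = E_+ q` -/
theorem Dat.a_q (h o r : ℕ) (ho : h * o = 2 * n) (ε : ℚ) (l : ℕ) (hl : l < 2 * n) (hl' : ¬ l % h < 2 * r) :
    D.a h o r * (el (D.s ^ l)⁻¹ * D.E ε * el (D.s ^ l)) = 0 := by
  rw [Dat.a, mul_assoc, D.Xi_mul_conj h r 1 ε l hl hl', mul_zero]

theorem Dat.b_q (h o r : ℕ) (ho : h * o = 2 * n) (ε : ℚ) (l : ℕ) (hl : l < 2 * n) (hl' : ¬ l % h < 2 * r) :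
    D.b h o r * (el (D.s ^ l)⁻¹ * D.E ε * el (D.s ^ l)) = 0 := by
  rw [Dat.b, mul_assoc, D.Xi_mul_conj h r (-1) ε l hl hl', mul_zero]

theorem Dat.u3_pow_q (h o r : ℕ) (ho : h * o = 2 * n) (he : Even o) (ε : ℚ) (l : ℕ) (hl : l < 2 * n) (hl' : ¬ l % h < 2 * r)
    (k : ℕ) : (D.u3 h o r) ^ k * (el (D.s ^ l)⁻¹ * D.E ε * el (D.s ^ l)) =
      el (D.s ^ (h * k)) * (el (D.s ^ l)⁻¹ * D.E ε * el (D.s ^ l)) := by
  rcases Nat.even_or_odd k with hk | hk
  · rw [D.u3_pow_even h o r ho he k hk]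
  · rw [D.u3_pow_odd h o r ho he k hk, sub_mul, add_mul, smul_mul_assoc, smul_mul_assoc,
      D.a_q h o r ho ε l hl hl', D.b_q h o r ho ε l hl hl', smul_zero, add_zero, sub_zero]

/-- `E s^(hk) E = 0` for `0 < k < o` (`E_sj_E`), so `q e q = (1/o) q` -/
theorem Dat.q_e_q (h o r : ℕ) (ho : h * o = 2 * n) (he : Even o) (h0 : 0 < o) (ε : ℚ) (hε : ε * ε = 1) (l : ℕ) (hl : l < 2 * n)
    (hl' : ¬ l % h < 2 * r) :
    (el (D.s ^ l)⁻¹ * D.E ε * el (D.s ^ l)) * D.e0 h o r * (el (D.s ^ l)⁻¹ * D.E ε * el (D.s ^ l)) =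
      (1 / (o : ℚ)) • (el (D.s ^ l)⁻¹ * D.E ε * el (D.s ^ l)) := by
  have hls : el (D.s ^ l) * el (D.s ^ l)⁻¹ = (1 : MonoidAlgebra ℚ G) := by
    rw [← map_mul, mul_inv_cancel, map_one]
  rw [Dat.e0, mul_smul_comm, smul_mul_assoc]
  congr 1
  rw [mul_assoc, sum_mul, sum_congr rfl (fun k _ => D.u3_pow_q h o r ho he ε l hl hl' k), mul_sum]
  rw [sum_eq_single_of_mem 0 (mem_range.2 h0)]
  · rw [mul_zero, pow_zero, map_one, one_mul]
    calc el (D.s ^ l)⁻¹ * D.E ε * el (D.s ^ l) * (el (D.s ^ l)⁻¹ * D.E ε * el (D.s ^ l))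
        = el (D.s ^ l)⁻¹ * D.E ε * (el (D.s ^ l) * el (D.s ^ l)⁻¹) * D.E ε * el (D.s ^ l) := by
          simp only [mul_assoc]
      _ = el (D.s ^ l)⁻¹ * (D.E ε * D.E ε) * el (D.s ^ l) := by
          rw [hls, mul_one]; simp only [mul_assoc]
      _ = _ := by rw [D.E_idem ε hε]
  · intro k hk hk0
    have hk' := mem_range.1 hk
    have hcomm : el (D.s ^ l) * el (D.s ^ (h * k)) * el (D.s ^ l)⁻¹ = (el (D.s ^ (h * k)) : MonoidAlgebra ℚ G) := by
      rw [← map_mul, ← map_mul, ← pow_add, add_comm l, pow_add, mul_assoc, mul_inv_cancel, mul_one]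
    have hnd : ¬ 2 * n ∣ h * k := by
      rw [← ho]
      intro hd
      have hh : 0 < h := by
        rcases Nat.eq_zero_or_pos h with hz | hz
        · exfalso
          rw [hz, zero_mul] at ho
          have := D.npos
          omega
        · exact hz
      have := Nat.dvd_of_mul_dvd_mul_left hh hd
      have := Nat.le_of_dvd (Nat.pos_of_ne_zero hk0) this
      omega
    calc el (D.s ^ l)⁻¹ * D.E ε * el (D.s ^ l) *
          (el (D.s ^ (h * k)) * (el (D.s ^ l)⁻¹ * D.E ε * el (D.s ^ l)))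
        = el (D.s ^ l)⁻¹ * (D.E ε * (el (D.s ^ l) * el (D.s ^ (h * k)) * el (D.s ^ l)⁻¹) * D.E ε) * el (D.s ^ l) := by
          simp only [mul_assoc]
      _ = 0 := by rw [hcomm, D.E_sj_E ε ε (h * k) hnd, mul_zero, zero_mul]

end Pool.Agent.Bovdi
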