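import Pool.Agent.Lib.MP_0d8f30_al.BV.R3

set_option autoImplicit false

/-! # Task F2: the averaging formula over `N` -/

namespace Pool.Agent.Bovdi

open Finset

variable {G : Type} [Group G] [Fintype G] {n : ℕ} (D : Dat G n)

theorem Dat.pow_s_mem_N (j : ℕ) (y : G) (hy : y ∈ D.N) : D.s ^ j * y * (D.s ^ j)⁻¹ ∈ D.N := by
  induction j with
  | zero => rw [pow_zero, one_mul, inv_one, mul_one]; exact hy
  | succ j ih =>
    have h1 := D.sN _ ih
    have h2 : D.s ^ (j + 1) * y * (D.s ^ (j + 1))⁻¹ =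
        D.s * (D.s ^ j * y * (D.s ^ j)⁻¹) * D.s⁻¹ := by
      rw [pow_succ', mul_inv_rev]
      simp only [mul_assoc]
    rw [h2]
    exact h1

/-- If `s^j y = y s^j`, `y ∈ N`, and some power of `s^j` is `s^n`, then `y = y⁻¹`, `y² = 1`, `y = 1`. -/
theorem Dat.fixed_eq_one (j k : ℕ) (hk : (D.s ^ j) ^ k = D.s ^ n) (y : G) (hy : y ∈ D.N)
    (h : D.s ^ j * y = y * D.s ^ j) : y = 1 := by
  have h1 : Commute (D.s ^ j) y := h
  have h2 : Commute ((D.s ^ j) ^ k) y := h1.pow_left k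
  rw [hk] at h2
  have h3 : D.s ^ n * y = y * D.s ^ n := h2
  rw [D.zN y hy] at h3
  have h4 : y⁻¹ = y := mul_right_cancel h3
  have h5 : y * y = 1 := by
    calc y * y = y⁻¹ * y := by rw [h4]
      _ = 1 := inv_mul_cancel y
  have h6 := D.expN y hy
  rw [pow_succ, pow_two, h5, one_mul] at h6
  exact h6

open Classical in
/-- `∑_{y ∈ N} y s^j y⁻¹ = |N| avg(N) s^j`: `y s^j y⁻¹ = y (s^j y⁻¹ s^-j) s^j` and `y ↦ y (s^j y⁻¹ s^-j)` is injective on `N`
(`fixed_eq_one`), hence bijective. -/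
theorem Dat.sum_conj_s (j k : ℕ) (hk : (D.s ^ j) ^ k = D.s ^ n) :
    ∑ y ∈ (univ : Finset G).filter (fun y => y ∈ D.N), el y * el (D.s ^ j) * el y⁻¹ =
      (Nat.card D.N : ℚ) • (avg D.N * el (D.s ^ j)) := by
  have hN : (Nat.card D.N : ℚ) ≠ 0 := by
    exact_mod_cast Nat.card_pos.ne'
  let φ : G → G := fun y => y * (D.s ^ j * y⁻¹ * (D.s ^ j)⁻¹)
  have hφ : ∀ y ∈ (univ : Finset G).filter (fun y => y ∈ D.N),
      φ y ∈ (univ : Finset G).filter (fun y => y ∈ D.N) := by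
    intro y hy
    rw [Finset.mem_filter] at hy ⊢
    exact ⟨Finset.mem_univ _, D.N.mul_mem hy.2 (D.pow_s_mem_N j y⁻¹ (D.N.inv_mem hy.2))⟩
  have hinj : Set.InjOn φ ((univ : Finset G).filter (fun y => y ∈ D.N) : Finset G) := by
    intro a ha b hb hab
    rw [Finset.mem_coe, Finset.mem_filter] at ha hb
    have h1 : a * (D.s ^ j * a⁻¹ * (D.s ^ j)⁻¹) = b * (D.s ^ j * b⁻¹ * (D.s ^ j)⁻¹) := hab
    have h2 : a * D.s ^ j * a⁻¹ = b * D.s ^ j * b⁻¹ := by
      have h3 := congrArg (fun g => g * D.s ^ j) h1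
      simp only [mul_assoc, inv_mul_cancel, mul_one] at h3
      simp only [mul_assoc]
      exact h3
    have h4 : D.s ^ j * (b⁻¹ * a) = (b⁻¹ * a) * D.s ^ j := by
      calc D.s ^ j * (b⁻¹ * a) = b⁻¹ * (b * D.s ^ j * b⁻¹) * a := by group
        _ = b⁻¹ * (a * D.s ^ j * a⁻¹) * a := by rw [h2]
        _ = (b⁻¹ * a) * D.s ^ j := by group
    have h5 := D.fixed_eq_one j k hk (b⁻¹ * a) (D.N.mul_mem (D.N.inv_mem hb.2) ha.2) h4
    exact (inv_mul_eq_one.1 h5).symm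
  have himg : ((univ : Finset G).filter (fun y => y ∈ D.N)).image φ =
      (univ : Finset G).filter (fun y => y ∈ D.N) := by
    apply Finset.eq_of_subset_of_card_le
    · intro g hg
      obtain ⟨y, hy, rfl⟩ := Finset.mem_image.1 hg
      exact hφ y hy
    · rw [Finset.card_image_of_injOn hinj]
  unfold avg
  rw [smul_mul_assoc, smul_smul, mul_inv_cancel₀ hN, one_smul, Finset.sum_mul]
  conv_rhs => rw [← himg, Finset.sum_image hinj]
  refine Finset.sum_congr rfl (fun y _ => ?_)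
  show el y * el (D.s ^ j) * el y⁻¹ = el (y * (D.s ^ j * y⁻¹ * (D.s ^ j)⁻¹)) * el (D.s ^ j)
  rw [← map_mul, ← map_mul, ← map_mul]
  congr 1
  group

open Classical in
/-- `n = h 2^m`, `o = 2^(m+1)`: `∑_{y ∈ N} y E_+ y⁻¹ (1 - avg N) = (|N|/o)(1 - avg N)`.
For `0 < i < o` some power of `s^(hi)` is `s^n` (`i = 2^t i'`, `i'` odd, `t ≤ m`: `hi 2^(m-t) = n i'`, `s^(n i') = s^n`). -/
theorem Dat.sum_conj_Eb (h m : ℕ) (hn : n = h * 2 ^ m) :
    (∑ y ∈ (univ : Finset G).filter (fun y => y ∈ D.N), el y * D.Eb h (2 ^ (m + 1)) 1 * el y⁻¹) * (1 - avg D.N) =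
      ((Nat.card D.N : ℚ) / (2 ^ (m + 1) : ℚ)) • (1 - avg D.N) := by
  have hs : ∀ i : ℕ, i ≠ 0 → i < 2 ^ (m + 1) → ∃ k : ℕ, (D.s ^ (h * i)) ^ k = D.s ^ n := by
    intro i hi0 hi
    obtain ⟨t, i', hodd, hit⟩ := Nat.exists_eq_two_pow_mul_odd hi0
    have ht : t ≤ m := by
      have h1 : 2 ^ t < 2 ^ (m + 1) := by
        refine lt_of_le_of_lt ?_ hi
        rw [hit]
        exact Nat.le_mul_of_pos_right _ (by rcases hodd with ⟨c, rfl⟩; omega)
      have h2 := (Nat.pow_lt_pow_iff_right (by norm_num : 1 < 2)).1 h1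
      omega
    refine ⟨2 ^ (m - t), ?_⟩
    have h3 : h * i * 2 ^ (m - t) = n * i' := by
      have h4 : 2 ^ t * 2 ^ (m - t) = 2 ^ m := by rw [← pow_add]; congr 1; omega
      rw [hn, hit, ← h4]
      ring
    obtain ⟨c, hc⟩ := hodd
    rw [← pow_mul, h3, hc, mul_add, mul_one, pow_add, show n * (2 * c) = 2 * n * c by ring,
      pow_mul, D.s_pow_two_n, one_pow, one_mul]
  have hz : ∀ j : ℕ, (avg D.N * el (D.s ^ j)) * (1 - avg D.N) = 0 := by
    intro j
    rw [D.avgN_s j, mul_assoc, mul_sub, mul_one, avg_idem, sub_self, mul_zero]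
  have hterm : ∀ i ∈ range (2 ^ (m + 1)), i ≠ 0 →
      (∑ y ∈ (univ : Finset G).filter (fun y => y ∈ D.N), el y * el (D.s ^ (h * i)) * el y⁻¹) *
        (1 - avg D.N) = 0 := by
    intro i hi hi0
    obtain ⟨k, hk⟩ := hs i hi0 (Finset.mem_range.1 hi)
    rw [D.sum_conj_s (h * i) k hk, smul_mul_assoc, hz, smul_zero]
  have hzero : (∑ y ∈ (univ : Finset G).filter (fun y => y ∈ D.N),
      el y * el (D.s ^ (h * 0)) * el y⁻¹) = (Nat.card D.N : ℚ) • (1 : MonoidAlgebra ℚ G) := by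
    have h1 : ∀ y ∈ (univ : Finset G).filter (fun y => y ∈ D.N),
        el y * el (D.s ^ (h * 0)) * el y⁻¹ = 1 := by
      intro y _
      rw [mul_zero, pow_zero, map_one, mul_one, ← map_mul, mul_inv_cancel, map_one]
    rw [Finset.sum_congr rfl h1, Finset.sum_const]
    have h2 : ((univ : Finset G).filter (fun y => y ∈ D.N)).card = Nat.card D.N := by
      rw [Nat.card_eq_fintype_card, Fintype.card_subtype]
    rw [h2, Nat.cast_smul_eq_nsmul]
  have hswap : (∑ y ∈ (univ : Finset G).filter (fun y => y ∈ D.N),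
      el y * D.Eb h (2 ^ (m + 1)) 1 * el y⁻¹) =
      (1 / ((2 ^ (m + 1) : ℕ) : ℚ)) • ∑ i ∈ range (2 ^ (m + 1)),
        ∑ y ∈ (univ : Finset G).filter (fun y => y ∈ D.N), el y * el (D.s ^ (h * i)) * el y⁻¹ := by
    rw [Finset.sum_comm, Finset.smul_sum]
    refine Finset.sum_congr rfl (fun y _ => ?_)
    unfold Dat.Eb
    rw [mul_smul_comm, smul_mul_assoc, Finset.mul_sum, Finset.sum_mul]
    congr 1
    refine Finset.sum_congr rfl (fun i _ => ?_)
    rw [one_pow, one_smul]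
  rw [hswap, smul_mul_assoc, Finset.sum_mul, Finset.sum_eq_single 0]
  · rw [hzero, smul_mul_assoc, one_mul, smul_smul]
    congr 1
    push_cast
    ring
  · intro i hi hi0
    exact hterm i hi hi0
  · intro h0
    exact absurd (Finset.mem_range.2 (by positivity)) h0

end Pool.Agent.Bovdi
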