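import Pool.Agent.Lib.MP_0d8f30_al.BV.F1
import Pool.Agent.Lib.MP_0d8f30_al.BV.F2

set_option autoImplicit false

/-! # Task F3: fullness (section 4) -/

namespace Pool.Agent.Bovdi

open Finset

variable {G : Type} [Group G] [Fintype G] {n : ℕ} (D : Dat G n)

/-- `ζ = avg` of the normal closure of `N` -/
noncomputable def Dat.zeta : MonoidAlgebra ℚ G := avg (Subgroup.normalClosure (D.N : Set G))

/-- `e' = e(1 - ζ) + ζ` -/
noncomputable def Dat.ee (h o r : ℕ) : MonoidAlgebra ℚ G := D.e0 h o r * (1 - D.zeta) + D.zeta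

theorem Dat.zeta_idem : D.zeta * D.zeta = D.zeta := by
  exact avg_idem _

theorem Dat.zeta_central (y : MonoidAlgebra ℚ G) : D.zeta * y = y * D.zeta := by
  exact avg_central _ y

theorem Dat.zeta_comm (y y' : MonoidAlgebra ℚ G) : D.zeta * (y * y') = D.zeta * (y' * y) := by
  exact avg_mul_commute _ D.comm y y'


theorem Dat.ee_idem (h o r : ℕ) (ho : h * o = 2 * n) (he : Even o) (h0 : 0 < o) : D.ee h o r * D.ee h o r = D.ee h o r := by
  have h1 : D.zeta * D.e0 h o r = D.e0 h o r * D.zeta := D.zeta_central _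
  have h2 := D.e0_idem h o r ho he h0
  have h3 := D.zeta_idem
  have e1 : D.e0 h o r * (D.e0 h o r * D.zeta) = D.e0 h o r * D.zeta := by rw [← mul_assoc, h2]
  have e2 : D.e0 h o r * D.zeta * D.e0 h o r = D.e0 h o r * D.zeta := by
    rw [mul_assoc, h1, e1]
  have e3 : D.e0 h o r * D.zeta * (D.e0 h o r * D.zeta) = D.e0 h o r * D.zeta := by
    rw [← mul_assoc, e2, mul_assoc, h3]
  have e4 : D.e0 h o r * D.zeta * D.zeta = D.e0 h o r * D.zeta := by rw [mul_assoc, h3]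
  have e5 : D.zeta * (D.e0 h o r * D.zeta) = D.e0 h o r * D.zeta := by
    rw [← mul_assoc, h1, e4]
  unfold Dat.ee
  simp only [mul_sub, sub_mul, mul_add, add_mul, mul_one]
  rw [h2, e1, e2, e3, e4, e5, h1, h3]
  abel

theorem Dat.ee_u3 (h o r : ℕ) (ho : h * o = 2 * n) (he : Even o) (h0 : 0 < o) :
    D.ee h o r * D.u3 h o r = D.u3 h o r * D.ee h o r := by
  have h1 : D.zeta * D.u3 h o r = D.u3 h o r * D.zeta := D.zeta_central _
  have h2 := D.e0_u3 h o r ho he h0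
  have h3 := D.u3_e0 h o r ho he h0
  unfold Dat.ee
  rw [add_mul, mul_add, mul_sub, mul_one, sub_mul, mul_sub, h2, h3, mul_assoc, h1, ← mul_assoc,
    ← mul_assoc, h2, h3]

/-- `e' y e' = e(1-ζ) y e(1-ζ) + ζ y ...` commutes with `u₃` -/
theorem Dat.ee_y_ee (h o r : ℕ) (ho : h * o = 2 * n) (he : Even o) (h0 : 0 < o) (y : MonoidAlgebra ℚ G) :
    (D.ee h o r * y * D.ee h o r) * D.u3 h o r = D.u3 h o r * (D.ee h o r * y * D.ee h o r) := by
  have z1 : ∀ x, D.zeta * x = x * D.zeta := D.zeta_central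
  have h2 := D.e0_u3 h o r ho he h0
  have h3 := D.u3_e0 h o r ho he h0
  have hz := D.zeta_idem
  have e1 : D.e0 h o r * (1 - D.zeta) * D.u3 h o r = D.e0 h o r * (1 - D.zeta) := by
    rw [mul_sub, mul_one, sub_mul, h2, mul_assoc, z1, ← mul_assoc, h2]
  have e2 : D.u3 h o r * (D.e0 h o r * (1 - D.zeta)) = D.e0 h o r * (1 - D.zeta) := by
    rw [← mul_assoc, h3]
  have e3 : D.e0 h o r * (1 - D.zeta) * D.zeta = 0 := by
    rw [mul_assoc, sub_mul, one_mul, hz, sub_self, mul_zero]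
  have e4 : D.zeta * (D.e0 h o r * (1 - D.zeta)) = 0 := by
    rw [z1, e3]
  unfold Dat.ee
  generalize D.e0 h o r * (1 - D.zeta) = a at e1 e2 e3 e4 ⊢
  generalize D.u3 h o r = u at e1 e2 ⊢
  have k1 : (a + D.zeta) * y * (a + D.zeta) = a * y * a + D.zeta * y := by
    have t1 : a * y * D.zeta = 0 := by
      rw [mul_assoc, ← z1 y, ← mul_assoc, e3, zero_mul]
    have t2 : D.zeta * y * a = 0 := by
      rw [z1 y, mul_assoc, e4, mul_zero]
    have t3 : D.zeta * y * D.zeta = D.zeta * y := by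
      rw [mul_assoc, ← z1 y, ← mul_assoc, hz]
    rw [add_mul, add_mul, mul_add, mul_add, t1, t2, t3]
    abel
  rw [k1, add_mul, mul_add, mul_assoc (a * y) a u, e1, ← mul_assoc u (a * y) a, ← mul_assoc u a y,
    e2, mul_assoc D.zeta y u, D.zeta_comm, ← mul_assoc, ← mul_assoc u, z1 u]



theorem f3_smul_mem {A : Type*} [Ring A] [Algebra ℚ A] (I : TwoSidedIdeal A) (c : ℚ) {x : A}
    (hx : x ∈ I) : c • x ∈ I := by
  rw [Algebra.smul_def]
  exact I.mul_mem_left _ _ hx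

theorem f3_smul_mem_iff {A : Type*} [Ring A] [Algebra ℚ A] (I : TwoSidedIdeal A) (c : ℚ)
    (hc : c ≠ 0) {x : A} (hx : c • x ∈ I) : x ∈ I := by
  have h := f3_smul_mem I c⁻¹ hx
  rwa [smul_smul, inv_mul_cancel₀ hc, one_smul] at h

/-- the elements congruent to `1` modulo a two-sided ideal -/
noncomputable def f3_sub (I : TwoSidedIdeal (MonoidAlgebra ℚ G)) : Subgroup G where
  carrier := {g | el g - 1 ∈ I}
  mul_mem' := by
    intro a b ha hb
    change el (a * b) - 1 ∈ I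
    have h1 : (el (a * b) : MonoidAlgebra ℚ G) - 1 = (el a - 1) * el b + (el b - 1) := by
      rw [map_mul, sub_mul, one_mul]
      abel
    rw [h1]
    exact I.add_mem (I.mul_mem_right _ _ ha) hb
  one_mem' := by
    change el (1 : G) - 1 ∈ I
    rw [map_one, sub_self]
    exact I.zero_mem
  inv_mem' := by
    intro a ha
    change el a⁻¹ - 1 ∈ I
    have h2 : (el a⁻¹ : MonoidAlgebra ℚ G) * el a = 1 := by
      rw [← map_mul, inv_mul_cancel, map_one]
    have h1 : (el a⁻¹ : MonoidAlgebra ℚ G) - 1 = -(el a⁻¹ * (el a - 1)) := by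
      rw [mul_sub, h2, mul_one]
      abel
    rw [h1]
    exact I.neg_mem (I.mul_mem_left _ _ ha)

theorem f3_mem_sub (I : TwoSidedIdeal (MonoidAlgebra ℚ G)) (g : G) :
    g ∈ f3_sub I ↔ el g - 1 ∈ I := Iff.rfl

instance f3_normal (I : TwoSidedIdeal (MonoidAlgebra ℚ G)) : (f3_sub I).Normal where
  conj_mem := by
    intro a ha g
    rw [f3_mem_sub] at ha ⊢
    have h2 : (el g : MonoidAlgebra ℚ G) * el g⁻¹ = 1 := by
      rw [← map_mul, mul_inv_cancel, map_one]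
    have h1 : (el (g * a * g⁻¹) : MonoidAlgebra ℚ G) - 1 = el g * (el a - 1) * el g⁻¹ := by
      rw [map_mul, map_mul, mul_sub, sub_mul, mul_one, h2]
    rw [h1]
    exact I.mul_mem_right _ _ (I.mul_mem_left _ _ ha)

/-- The ideal generated by `e'` is everything.  Let `I` be a two-sided ideal containing `e'`: `ζ = ζ e' ∈ I`, `e ∈ I`.  With `l = 2r < h` (`l % h = 2r`):
`q_ε = o • q e q ∈ I` (`q_e_q`), so `E_ε ∈ I`, `Ξ_± ∈ I`, `a, b ∈ I`; `u₃ ≡ s₀`, `u₃^k ≡ s₀^k` mod `I`, so `E_+ = Eb h o 1 ∈ I` (as `e ∈ I`); `sum_conj_Eb`: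
`1 - avg N ∈ I`.  So `el y - 1 ∈ I` for `y ∈ N`, for all `y` in the normal closure (`Subgroup.closure_induction` / `normalClosure` induction), so
`ζ - 1 ∈ I` and `1 ∈ I`. -/
theorem Dat.ee_full (h m r : ℕ) (hn : n = h * 2 ^ m) (hr : 2 * r < h) (I : TwoSidedIdeal (MonoidAlgebra ℚ G))
    (hI : D.ee h (2 ^ (m + 1)) r ∈ I) : (1 : MonoidAlgebra ℚ G) ∈ I := by
  classical
  have ho : h * 2 ^ (m + 1) = 2 * n := by
    rw [hn, pow_succ]
    ring
  have he : Even (2 ^ (m + 1)) := (even_two).pow_of_ne_zero (Nat.succ_ne_zero m)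
  have h0 : 0 < 2 ^ (m + 1) := by positivity
  have hoQ : ((2 ^ (m + 1) : ℕ) : ℚ) ≠ 0 := by positivity
  have z1 : ∀ x, D.zeta * x = x * D.zeta := D.zeta_central
  have hz := D.zeta_idem
  -- `ζ ∈ I`
  have hzI : D.zeta ∈ I := by
    have h1 := I.mul_mem_left D.zeta _ hI
    have h2 : D.zeta * D.ee h (2 ^ (m + 1)) r = D.zeta := by
      unfold Dat.ee
      rw [mul_add, hz, ← mul_assoc, z1, mul_assoc, mul_sub, mul_one, hz, sub_self, mul_zero,
        zero_add]
    rwa [h2] at h1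
  have heI : D.e0 h (2 ^ (m + 1)) r ∈ I := by
    have h1 : D.e0 h (2 ^ (m + 1)) r = D.ee h (2 ^ (m + 1)) r - D.zeta +
        D.e0 h (2 ^ (m + 1)) r * D.zeta := by
      unfold Dat.ee
      rw [mul_sub, mul_one]
      abel
    rw [h1]
    exact I.add_mem (I.sub_mem hI hzI) (I.mul_mem_left _ _ hzI)
  have hl : 2 * r < 2 * n := by
    rw [← ho]
    calc 2 * r < h := hr
      _ = h * 1 := (mul_one h).symm
      _ ≤ h * 2 ^ (m + 1) := Nat.mul_le_mul_left h h0
  have hl' : ¬ (2 * r) % h < 2 * r := by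
    rw [Nat.mod_eq_of_lt hr]
    exact lt_irrefl _
  have hE : ∀ ε : ℚ, ε * ε = 1 → D.E ε ∈ I := by
    intro ε hε
    have h1 := D.q_e_q h (2 ^ (m + 1)) r ho he h0 ε hε (2 * r) hl hl'
    have h2 : (1 / ((2 ^ (m + 1) : ℕ) : ℚ)) • (el (D.s ^ (2 * r))⁻¹ * D.E ε * el (D.s ^ (2 * r))) ∈ I := by
      rw [← h1]
      exact I.mul_mem_right _ _ (I.mul_mem_left _ _ heI)
    have h3 := f3_smul_mem_iff I _ (one_div_ne_zero hoQ) h2
    have h4 := I.mul_mem_right _ (el (D.s ^ (2 * r))⁻¹) (I.mul_mem_left (el (D.s ^ (2 * r))) _ h3)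
    have e1 : (el (D.s ^ (2 * r)) : MonoidAlgebra ℚ G) * el (D.s ^ (2 * r))⁻¹ = 1 := by
      rw [← map_mul, mul_inv_cancel, map_one]
    have h5 : el (D.s ^ (2 * r)) * (el (D.s ^ (2 * r))⁻¹ * D.E ε * el (D.s ^ (2 * r))) *
        el (D.s ^ (2 * r))⁻¹ = D.E ε := by
      rw [← mul_assoc, ← mul_assoc, e1, one_mul, mul_assoc, e1, mul_one]
    rwa [h5] at h4
  have hXi : ∀ ε : ℚ, ε * ε = 1 → D.Xi h r ε ∈ I := by
    intro ε hε
    unfold Dat.Xi
    exact sum_mem fun l _ => I.mul_mem_right _ _ (I.mul_mem_left _ _ (hE ε hε))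
  have haI : D.a h (2 ^ (m + 1)) r ∈ I := I.mul_mem_left _ _ (hXi 1 (by norm_num))
  have hbI : D.b h (2 ^ (m + 1)) r ∈ I := I.mul_mem_left _ _ (hXi (-1) (by norm_num))
  have hEb : D.Eb h (2 ^ (m + 1)) 1 ∈ I := by
    have h1 : D.Eb h (2 ^ (m + 1)) 1 = D.e0 h (2 ^ (m + 1)) r - (1 / ((2 ^ (m + 1) : ℕ) : ℚ)) •
        ∑ k ∈ range (2 ^ (m + 1)), ((D.u3 h (2 ^ (m + 1)) r) ^ k - el (D.s ^ (h * k))) := by
      unfold Dat.Eb Dat.e0
      rw [← smul_sub, ← Finset.sum_sub_distrib]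
      congr 1
      refine Finset.sum_congr rfl fun k _ => ?_
      rw [one_pow, one_smul]
      abel
    rw [h1]
    refine I.sub_mem heI (f3_smul_mem I _ (sum_mem fun k _ => ?_))
    rcases Nat.even_or_odd k with hk | hk
    · rw [D.u3_pow_even h _ r ho he k hk, sub_self]
      exact I.zero_mem
    · rw [D.u3_pow_odd h _ r ho he k hk]
      have e1 : el (D.s ^ (h * k)) + (2 : ℚ) • D.a h (2 ^ (m + 1)) r -
          (2 : ℚ) • D.b h (2 ^ (m + 1)) r - el (D.s ^ (h * k)) =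
          (2 : ℚ) • D.a h (2 ^ (m + 1)) r - (2 : ℚ) • D.b h (2 ^ (m + 1)) r := by abel
      rw [e1]
      exact I.sub_mem (f3_smul_mem I _ haI) (f3_smul_mem I _ hbI)
  have hN : 1 - avg D.N ∈ I := by
    have h1 := D.sum_conj_Eb h m hn
    have h2 : ((Nat.card D.N : ℚ) / (2 ^ (m + 1) : ℚ)) • (1 - avg D.N) ∈ I := by
      rw [← h1]
      refine I.mul_mem_right _ _ (sum_mem fun y _ => ?_)
      exact I.mul_mem_right _ _ (I.mul_mem_left _ _ hEb)
    refine f3_smul_mem_iff I _ (div_ne_zero ?_ (by positivity)) h2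
    exact_mod_cast Nat.card_pos.ne'
  have hNsub : ∀ y ∈ D.N, y ∈ f3_sub I := by
    intro y hy
    rw [f3_mem_sub]
    have h1 : (el y - 1) * (1 - avg D.N) = (el y - 1 : MonoidAlgebra ℚ G) := by
      rw [mul_sub, mul_one, sub_mul, one_mul, el_mul_avg D.N hy, sub_self, sub_zero]
    rw [← h1]
    exact I.mul_mem_left _ _ hN
  have hB : Subgroup.normalClosure (D.N : Set G) ≤ f3_sub I :=
    Subgroup.normalClosure_le_normal hNsub
  have hz1 : D.zeta - 1 ∈ I := by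
    have hcard : (Nat.card (Subgroup.normalClosure (D.N : Set G)) : ℚ) ≠ 0 := by
      exact_mod_cast Nat.card_pos.ne'
    have hc2 : ((univ : Finset G).filter
        (fun g => g ∈ Subgroup.normalClosure (D.N : Set G))).card =
        Nat.card (Subgroup.normalClosure (D.N : Set G)) := by
      rw [Nat.card_eq_fintype_card, Fintype.card_subtype]
    have h1 : D.zeta - 1 = (Nat.card (Subgroup.normalClosure (D.N : Set G)) : ℚ)⁻¹ •
        ∑ g ∈ (univ : Finset G).filter (fun g => g ∈ Subgroup.normalClosure (D.N : Set G)),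
          (el g - 1) := by
      unfold Dat.zeta avg
      rw [Finset.sum_sub_distrib, smul_sub, Finset.sum_const, hc2, ← Nat.cast_smul_eq_nsmul ℚ,
        smul_smul, inv_mul_cancel₀ hcard, one_smul]
    rw [h1]
    refine f3_smul_mem I _ (sum_mem fun g hg => ?_)
    exact hB (Finset.mem_filter.1 hg).2
  have h1 : (1 : MonoidAlgebra ℚ G) = D.zeta - (D.zeta - 1) := by abel
  rw [h1]
  exact I.sub_mem hzI hz1


end Pool.Agent.Bovdi
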