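import Pool.Agent.Lib.MP_0d8f30_al.BV.Def

set_option autoImplicit false
set_option linter.unusedSectionVars false

/-! # The concrete group (block B4) -/

namespace Pool.Agent.Bovdi

namespace Grp

/-- the group `A₄` with the automorphism `τ` -/
structure Base (A : Type) [Group A] where
  τ : A ≃* A
  w : A
  v : A
  x : A
  ττ : ∀ a, τ (τ a) = a
  w1 : w ≠ 1
  ww : w * w = 1
  vv : v * v = 1
  vw : v * w = w * v
  τw : τ w = w
  τv : τ v = w * v
  x3 : x ^ 3 = 1
  xw : x * w = v * x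
  xv : x * v = w * v * x
  τx : τ x = x⁻¹
  gen : ∀ a, ∃ k : ℕ, ∃ c, (c = 1 ∨ c = w ∨ c = v ∨ c = w * v) ∧ a = x ^ k * c

section Val

variable {n : ℕ} [NeZero (2 * n)]

theorem val_n (hn : 0 < n) : ((n : ZMod (2 * n))).val = n := by
  rw [ZMod.val_natCast, Nat.mod_eq_of_lt]
  omega

theorem val_add_n (hn : 0 < n) (i : ZMod (2 * n)) : (i + (n : ZMod (2 * n))).val < n ↔ ¬ i.val < n := by
  rw [ZMod.val_add, val_n hn]
  have hi : i.val < 2 * n := ZMod.val_lt i
  by_cases h : i.val < n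
  · rw [Nat.mod_eq_of_lt (by omega)]
    omega
  · rw [Nat.mod_eq_sub_mod (by omega), Nat.mod_eq_of_lt (by omega)]
    omega

theorem n_add_n : (n : ZMod (2 * n)) + n = 0 := by
  rw [← two_mul]
  have h := ZMod.natCast_self (2 * n)
  rw [Nat.cast_mul] at h
  exact_mod_cast h

theorem neg_n : -(n : ZMod (2 * n)) = n := by
  rw [neg_eq_iff_add_eq_zero, n_add_n]

theorem add_n_n (i : ZMod (2 * n)) : i + n + n = i := by rw [add_assoc, n_add_n, add_zero]

theorem sub_n (i : ZMod (2 * n)) : i - n = i + n := by rw [sub_eq_add_neg, neg_n]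

theorem val_j {j : ℕ} (hj : j < 2 * n) : ((j : ZMod (2 * n))).val = j := by
  rw [ZMod.val_natCast, Nat.mod_eq_of_lt hj]

end Val

variable {A : Type} [Group A] (D : Base A) (n : ℕ)

/-- the base group: twisted periodic functions -/
def TB : Subgroup (ZMod (2 * n) → A) where
  carrier := {φ | ∀ i, φ (i + n) = D.τ (φ i)}
  one_mem' := fun i => by simp
  mul_mem' := fun {a b} ha hb i => by
    rw [Pi.mul_apply, Pi.mul_apply, map_mul, ha i, hb i]
  inv_mem' := fun {a} ha i => by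
    rw [Pi.inv_apply, Pi.inv_apply, map_inv, ha i]

theorem TB.prop {D : Base A} {n : ℕ} (φ : TB D n) (i : ZMod (2 * n)) :
    φ.1 (i + n) = D.τ (φ.1 i) := φ.2 i

/-- translation -/
def tr (k : ZMod (2 * n)) : MulAut (TB D n) where
  toFun φ := ⟨fun i => φ.1 (i - k), fun i => by
    change φ.1 (i + n - k) = D.τ (φ.1 (i - k))
    rw [← TB.prop, add_sub_right_comm]⟩
  invFun φ := ⟨fun i => φ.1 (i + k), fun i => by
    change φ.1 (i + n + k) = D.τ (φ.1 (i + k))
    rw [← TB.prop, add_right_comm]⟩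
  left_inv φ := by
    apply Subtype.ext
    funext i
    change φ.1 (i + k - k) = φ.1 i
    rw [add_sub_cancel_right]
  right_inv φ := by
    apply Subtype.ext
    funext i
    change φ.1 (i - k + k) = φ.1 i
    rw [sub_add_cancel]
  map_mul' φ ψ := rfl

theorem tr_apply (k : ZMod (2 * n)) (φ : TB D n) (i : ZMod (2 * n)) :
    (tr D n k φ).1 i = φ.1 (i - k) := rfl

/-- translations as a homomorphism -/
def trHom : Multiplicative (ZMod (2 * n)) →* MulAut (TB D n) where
  toFun k := tr D n k.toAdd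
  map_one' := by
    ext φ : 1
    apply Subtype.ext
    funext i
    rw [tr_apply, toAdd_one, sub_zero]
    rfl
  map_mul' k l := by
    ext φ : 1
    apply Subtype.ext
    funext i
    rw [MulAut.mul_apply, tr_apply, tr_apply, tr_apply, toAdd_mul, sub_sub]

/-- the group -/
abbrev GG : Type := TB D n ⋊[trHom D n] Multiplicative (ZMod (2 * n))

variable [NeZero (2 * n)]

/-- extension of functions on the fundamental domain -/
def ext (hn : 0 < n) : (ZMod (2 * n) → A) →* TB D n where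
  toFun f := ⟨fun i => if i.val < n then f i else D.τ (f (i + n)), fun i => by
    change (if (i + (n : ZMod (2 * n))).val < n then f (i + n) else D.τ (f (i + n + n))) =
      D.τ (if i.val < n then f i else D.τ (f (i + n)))
    by_cases h : i.val < n
    · have h' : ¬ (i + (n : ZMod (2 * n))).val < n := by rw [val_add_n hn]; exact not_not.2 h
      rw [if_neg h', if_pos h, add_n_n]
    · have h' : (i + (n : ZMod (2 * n))).val < n := by rw [val_add_n hn]; exact h
      rw [if_pos h', if_neg h, D.ττ]⟩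
  map_one' := by
    apply Subtype.ext
    funext i
    change (if i.val < n then (1 : A) else D.τ 1) = 1
    rw [map_one, ite_self]
  map_mul' f g := by
    apply Subtype.ext
    funext i
    change (if i.val < n then f i * g i else D.τ (f (i + n) * g (i + n))) =
      (if i.val < n then f i else D.τ (f (i + n))) * (if i.val < n then g i else D.τ (g (i + n)))
    by_cases h : i.val < n
    · rw [if_pos h, if_pos h, if_pos h]
    · rw [if_neg h, if_neg h, if_neg h, map_mul]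

variable {D n}

theorem ext_apply (hn : 0 < n) (f : ZMod (2 * n) → A) (i : ZMod (2 * n)) :
    (ext D n hn f).1 i = if i.val < n then f i else D.τ (f (i + n)) := rfl

theorem ext_lt (hn : 0 < n) (f : ZMod (2 * n) → A) {i : ZMod (2 * n)} (h : i.val < n) :
    (ext D n hn f).1 i = f i := by rw [ext_apply, if_pos h]

theorem TB_ext (hn : 0 < n) {φ ψ : TB D n} (h : ∀ i : ZMod (2 * n), i.val < n → φ.1 i = ψ.1 i) :
    φ = ψ := by
  apply Subtype.ext
  funext i
  by_cases hi : i.val < n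
  · exact h i hi
  · have h1 : (i + (n : ZMod (2 * n))).val < n := by rw [val_add_n hn]; exact hi
    have h2 := h _ h1
    rw [φ.prop, ψ.prop] at h2
    exact D.τ.injective h2

theorem val_zero_lt (hn : 0 < n) : (0 : ZMod (2 * n)).val < n := by
  rw [ZMod.val_zero]; exact hn

/-- the elements of the coordinate `0` -/
def sg (hn : 0 < n) : A →* TB D n := (ext D n hn).comp (MonoidHom.mulSingle (fun _ => A) 0)

theorem sg_lt (hn : 0 < n) (a : A) {i : ZMod (2 * n)} (h : i.val < n) :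
    (sg (D := D) hn a).1 i = if i = 0 then a else 1 := by
  unfold sg
  rw [MonoidHom.comp_apply, ext_lt hn _ h, MonoidHom.mulSingle_apply, Pi.mulSingle_apply]

theorem sg_zero (hn : 0 < n) (a : A) : (sg (D := D) hn a).1 0 = a := by
  rw [sg_lt hn a (val_zero_lt hn), if_pos rfl]

theorem sg_ne (hn : 0 < n) (a : A) {i : ZMod (2 * n)} (h0 : i ≠ 0) (h1 : i ≠ n) :
    (sg (D := D) hn a).1 i = 1 := by
  by_cases h : i.val < n
  · rw [sg_lt hn a h, if_neg h0]
  · have h2 : (i + (n : ZMod (2 * n))).val < n := by rw [val_add_n hn]; exact h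
    have h3 : i + (n : ZMod (2 * n)) ≠ 0 := by
      intro h3
      apply h1
      rw [← neg_n, eq_neg_iff_add_eq_zero, h3]
    have h4 := sg_lt (D := D) hn a h2
    rw [if_neg h3, TB.prop, map_eq_one_iff _ D.τ.injective] at h4
    exact h4

/-- elements trivial in the coordinate `0` commute with the elements of the coordinate `0` -/
theorem comm0 (hn : 0 < n) {φ : TB D n} (h : φ.1 0 = 1) (a : A) : φ * sg hn a = sg hn a * φ := by
  apply TB_ext hn
  intro i hi
  change φ.1 i * (sg hn a).1 i = (sg hn a).1 i * φ.1 i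
  rw [sg_lt hn a hi]
  by_cases h0 : i = 0
  · rw [h0, h, if_pos rfl, mul_one, one_mul]
  · rw [if_neg h0, mul_one, one_mul]

theorem tr_n_apply (φ : TB D n) (i : ZMod (2 * n)) : (tr D n n φ).1 i = D.τ (φ.1 i) := by
  rw [tr_apply, sub_n, TB.prop]

theorem tr_n_sg (hn : 0 < n) (a : A) : tr D n n (sg hn a) = sg hn (D.τ a) := by
  apply TB_ext hn
  intro i hi
  rw [tr_n_apply, sg_lt hn a hi, sg_lt hn _ hi]
  by_cases h0 : i = 0
  · rw [if_pos h0, if_pos h0]
  · rw [if_neg h0, if_neg h0, map_one]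


/-! ### powers of `x` and `w` -/

theorem C_pow (D : Base A) {a : A} (ha : a ∈ Subgroup.zpowers D.x) : a ^ 3 = 1 := by
  obtain ⟨k, rfl⟩ := ha
  change (D.x ^ k) ^ 3 = 1
  rw [← zpow_natCast, ← zpow_mul, mul_comm, zpow_mul, zpow_natCast, D.x3, one_zpow]

theorem C_τ (D : Base A) {a : A} (ha : a ∈ Subgroup.zpowers D.x) : D.τ a = a⁻¹ := by
  obtain ⟨k, rfl⟩ := ha
  change D.τ (D.x ^ k) = (D.x ^ k)⁻¹
  rw [map_zpow, D.τx, inv_zpow]

theorem C_comm (D : Base A) {a b : A} (ha : a ∈ Subgroup.zpowers D.x)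
    (hb : b ∈ Subgroup.zpowers D.x) : a * b = b * a := by
  obtain ⟨k, rfl⟩ := ha
  obtain ⟨l, rfl⟩ := hb
  exact (Commute.refl D.x).zpow_zpow k l

theorem C_nat (D : Base A) {a : A} (ha : a ∈ Subgroup.zpowers D.x) : ∃ k : ℕ, a = D.x ^ k := by
  have h : IsOfFinOrder D.x := isOfFinOrder_iff_pow_eq_one.2 ⟨3, by norm_num, D.x3⟩
  obtain ⟨k, hk⟩ := h.mem_powers_iff_mem_zpowers.2 ha
  exact ⟨k, hk.symm⟩

theorem W_cases (D : Base A) {a : A} (ha : a ∈ Subgroup.zpowers D.w) : a = 1 ∨ a = D.w := by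
  have h : IsOfFinOrder D.w := isOfFinOrder_iff_pow_eq_one.2 ⟨2, by norm_num, by
    rw [pow_two, D.ww]⟩
  obtain ⟨k, hk⟩ := h.mem_powers_iff_mem_zpowers.2 ha
  have hk' : D.w ^ k = a := hk
  rcases Nat.even_or_odd' k with ⟨m, rfl | rfl⟩
  · left
    rw [← hk', pow_mul, pow_two, D.ww, one_pow]
  · right
    rw [← hk', pow_succ, pow_mul, pow_two, D.ww, one_pow, one_mul]

theorem gen_aux (D : Base A) {g c : A} (h : D.x * g = c * g * D.x) :
    c = D.x * (g * D.x⁻¹ * g⁻¹) := by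
  rw [← mul_assoc, ← mul_assoc, h]
  group

theorem gen2 (D : Base A) (a : A) :
    ∃ y ∈ Subgroup.zpowers D.x, ∃ g, a = y * (g * D.x⁻¹ * g⁻¹) := by
  obtain ⟨k, c, hc, rfl⟩ := D.gen a
  refine ⟨D.x ^ k * D.x, Subgroup.mul_mem _ (Subgroup.npow_mem_zpowers _ _)
    (Subgroup.mem_zpowers _), ?_⟩
  have key : ∃ g, c = D.x * (g * D.x⁻¹ * g⁻¹) := by
    rcases hc with rfl | rfl | rfl | rfl
    · exact ⟨1, gen_aux D (by simp)⟩
    · exact ⟨D.v, gen_aux D D.xv⟩
    · refine ⟨D.w * D.v, gen_aux D ?_⟩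
      rw [← mul_assoc, D.xw, mul_assoc, D.xv]
      simp only [mul_assoc]
    · refine ⟨D.w, gen_aux D ?_⟩
      rw [D.xw, mul_assoc D.w D.v D.w, D.vw, ← mul_assoc, D.ww, one_mul]
  obtain ⟨g, hg⟩ := key
  refine ⟨g, ?_⟩
  rw [mul_assoc, ← hg]

/-! ### subgroups of the base group -/

variable (D n) in
/-- functions with values in `C` -/
def PB (C : Subgroup A) : Subgroup (TB D n) where
  carrier := {φ | ∀ i, φ.1 i ∈ C}
  one_mem' := fun _ => C.one_mem
  mul_mem' := fun ha hb i => C.mul_mem (ha i) (hb i)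
  inv_mem' := fun ha i => C.inv_mem (ha i)

variable (D n) in
/-- functions with values in `C` and trivial coordinate `0` -/
def PB' (C : Subgroup A) : Subgroup (TB D n) where
  carrier := {φ | (∀ i, φ.1 i ∈ C) ∧ φ.1 0 = 1}
  one_mem' := ⟨fun i => C.one_mem, rfl⟩
  mul_mem' := fun {a b} ha hb => ⟨fun i => C.mul_mem (ha.1 i) (hb.1 i), by
    change a.1 0 * b.1 0 = 1
    rw [ha.2, hb.2, one_mul]⟩
  inv_mem' := fun {a} ha => ⟨fun i => C.inv_mem (ha.1 i), by
    change (a.1 0)⁻¹ = 1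
    rw [ha.2, inv_one]⟩

theorem mem_PB {C : Subgroup A} {φ : TB D n} : φ ∈ PB D n C ↔ ∀ i, φ.1 i ∈ C := Iff.rfl

theorem mem_PB' {C : Subgroup A} {φ : TB D n} :
    φ ∈ PB' D n C ↔ (∀ i, φ.1 i ∈ C) ∧ φ.1 0 = 1 := Iff.rfl

theorem ext_mem (hn : 0 < n) {C : Subgroup A} (hC : ∀ a ∈ C, D.τ a ∈ C)
    {f : ZMod (2 * n) → A} (hf : ∀ i, f i ∈ C) : ext D n hn f ∈ PB D n C := by
  intro i
  rw [ext_apply]
  by_cases h : i.val < n
  · rw [if_pos h]; exact hf i
  · rw [if_neg h]; exact hC _ (hf _)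

theorem sg_mem (hn : 0 < n) {C : Subgroup A} (hC : ∀ a ∈ C, D.τ a ∈ C) {a : A} (ha : a ∈ C) :
    sg (D := D) hn a ∈ PB D n C := by
  unfold sg
  rw [MonoidHom.comp_apply]
  refine ext_mem hn hC fun i => ?_
  rw [MonoidHom.mulSingle_apply, Pi.mulSingle_apply]
  by_cases h : i = 0
  · rw [if_pos h]; exact ha
  · rw [if_neg h]; exact C.one_mem

theorem C_stable (D : Base A) : ∀ a ∈ Subgroup.zpowers D.x, D.τ a ∈ Subgroup.zpowers D.x := by
  intro a ha
  rw [C_τ D ha]
  exact Subgroup.inv_mem _ ha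

theorem W_τ (D : Base A) {a : A} (ha : a ∈ Subgroup.zpowers D.w) : D.τ a = a := by
  rcases W_cases D ha with h | h
  · rw [h, map_one]
  · rw [h, D.τw]

theorem W_stable (D : Base A) : ∀ a ∈ Subgroup.zpowers D.w, D.τ a ∈ Subgroup.zpowers D.w := by
  intro a ha
  rw [W_τ D ha]
  exact ha

/-! ### the generator -/

variable (D n) in
/-- the generator of the cyclic group -/
def sS : GG D n := SemidirectProduct.inr (Multiplicative.ofAdd 1)

variable (D n) in
theorem sS_pow (j : ℕ) :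
    sS D n ^ j = SemidirectProduct.inr (Multiplicative.ofAdd (j : ZMod (2 * n))) := by
  unfold sS
  rw [← map_pow, ← ofAdd_nsmul, nsmul_one]

theorem conj_pow (j : ℕ) (φ : TB D n) : sS D n ^ j * (SemidirectProduct.inl φ : GG D n) *
    (sS D n ^ j)⁻¹ = SemidirectProduct.inl (tr D n j φ) := by
  rw [sS_pow, ← map_inv, ← SemidirectProduct.inl_aut]
  rfl

theorem pow_mul_inl (j : ℕ) (φ : TB D n) : sS D n ^ j * (SemidirectProduct.inl φ : GG D n) =
    SemidirectProduct.inl (tr D n j φ) * sS D n ^ j := by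
  rw [← conj_pow, inv_mul_cancel_right]

theorem order_s : orderOf (sS D n) = 2 * n := by
  unfold sS
  rw [orderOf_injective _ SemidirectProduct.inr_injective, orderOf_ofAdd_eq_addOrderOf,
    ZMod.addOrderOf_one]

variable (D n) in
/-- the image in the group -/
def IN (H : Subgroup (TB D n)) : Subgroup (GG D n) := H.map SemidirectProduct.inl

theorem mem_IN {H : Subgroup (TB D n)} {g : GG D n} :
    g ∈ IN D n H ↔ ∃ φ ∈ H, SemidirectProduct.inl φ = g := Subgroup.mem_map

theorem inl_mem_IN {H : Subgroup (TB D n)} {φ : TB D n} (h : φ ∈ H) :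
    (SemidirectProduct.inl φ : GG D n) ∈ IN D n H := mem_IN.2 ⟨φ, h, rfl⟩

theorem inl_mem_nc (hn : 0 < n) (φ : TB D n) : (SemidirectProduct.inl φ : GG D n) ∈
    Subgroup.normalClosure (IN D n (PB D n (Subgroup.zpowers D.x)) : Set (GG D n)) := by
  choose y hy g hg using gen2 D
  have h1 : φ = ext D n hn (fun i => y (φ.1 i)) * (ext D n hn (fun i => g (φ.1 i)) *
      ext D n hn (fun _ => D.x⁻¹) * (ext D n hn (fun i => g (φ.1 i)))⁻¹) := by
    apply TB_ext hn
    intro i hi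
    change φ.1 i = (ext D n hn (fun i => y (φ.1 i))).1 i * ((ext D n hn (fun i => g (φ.1 i))).1 i *
      (ext D n hn (fun _ => D.x⁻¹)).1 i * ((ext D n hn (fun i => g (φ.1 i))).1 i)⁻¹)
    rw [ext_lt hn _ hi, ext_lt hn _ hi, ext_lt hn _ hi, ← hg]
  rw [h1, map_mul, map_mul, map_mul, map_inv]
  refine Subgroup.mul_mem _ ?_ ?_
  · exact Subgroup.subset_normalClosure (inl_mem_IN (ext_mem hn (C_stable D) fun i => hy _))
  · refine Subgroup.normalClosure_normal.conj_mem _ ?_ _
    exact Subgroup.subset_normalClosure (inl_mem_IN (ext_mem hn (C_stable D) fun i =>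
      Subgroup.inv_mem _ (Subgroup.mem_zpowers _)))

theorem comm_mem_nc (hn : 0 < n) (a b : GG D n) : a * b * a⁻¹ * b⁻¹ ∈
    Subgroup.normalClosure (IN D n (PB D n (Subgroup.zpowers D.x)) : Set (GG D n)) := by
  have h : a * b * a⁻¹ * b⁻¹ ∈ (SemidirectProduct.rightHom : GG D n →* _).ker := by
    rw [MonoidHom.mem_ker, map_mul, map_mul, map_mul, map_inv, map_inv]
    rw [mul_comm (SemidirectProduct.rightHom a) (SemidirectProduct.rightHom b),
      mul_inv_cancel_right, mul_inv_cancel]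
  rw [← SemidirectProduct.range_inl_eq_ker_rightHom] at h
  obtain ⟨φ, hφ⟩ := h
  rw [← hφ]
  exact inl_mem_nc hn φ

theorem cast_ne_zero {j : ℕ} (h0 : 0 < j) (hj : j < n) : (j : ZMod (2 * n)) ≠ 0 := by
  intro h
  have h1 := congrArg ZMod.val h
  rw [val_j (by omega), ZMod.val_zero] at h1
  omega

theorem cast_ne_n {j : ℕ} (h0 : 0 < j) (hj : j < n) : (j : ZMod (2 * n)) ≠ n := by
  intro h
  have h1 := congrArg ZMod.val h
  rw [val_j (by omega), val_n (by omega)] at h1
  omega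

theorem sg_j (hn : 0 < n) (a : A) {j : ℕ} (h0 : 0 < j) (hj : j < n) :
    (sg (D := D) hn a).1 j = 1 := sg_ne hn a (cast_ne_zero h0 hj) (cast_ne_n h0 hj)

theorem sg_neg_j (hn : 0 < n) (a : A) {j : ℕ} (h0 : 0 < j) (hj : j < n) :
    (sg (D := D) hn a).1 (-j) = 1 := by
  refine sg_ne hn a ?_ ?_
  · rw [neg_ne_zero]; exact cast_ne_zero h0 hj
  · intro h
    apply cast_ne_n h0 hj
    rw [neg_eq_iff_eq_neg, neg_n] at h
    exact h

variable (D n) in
/-- the elements of the coordinate `0` in the group -/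
def isg (hn : 0 < n) : A →* GG D n := SemidirectProduct.inl.comp (sg hn)

theorem isg_apply (hn : 0 < n) (a : A) :
    isg D n hn a = SemidirectProduct.inl (sg hn a) := rfl

theorem isg_comm0 (hn : 0 < n) {φ : TB D n} (h : φ.1 0 = 1) (a : A) :
    (SemidirectProduct.inl φ : GG D n) * isg D n hn a = isg D n hn a * SemidirectProduct.inl φ := by
  rw [isg_apply, ← map_mul SemidirectProduct.inl φ, comm0 hn h, map_mul]

theorem isg_z (hn : 0 < n) (a : A) :
    sS D n ^ n * isg D n hn a = isg D n hn (D.τ a) * sS D n ^ n := by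
  rw [isg_apply, isg_apply, pow_mul_inl, tr_n_sg]

theorem inl_pow_eq {φ : TB D n} {k : ℕ} (h : φ ^ k = 1) :
    (SemidirectProduct.inl φ : GG D n) ^ k = 1 := by
  rw [← map_pow SemidirectProduct.inl φ, h, map_one]

theorem PB_pow {φ : TB D n} (h : ∀ i, φ.1 i ∈ Subgroup.zpowers D.x) :
    (SemidirectProduct.inl φ : GG D n) ^ 3 = 1 :=
  inl_pow_eq (Subtype.ext (funext fun i => C_pow D (h i)))

theorem WB_pow {φ : TB D n} (h : ∀ i, φ.1 i ∈ Subgroup.zpowers D.w) :
    (SemidirectProduct.inl φ : GG D n) ^ 2 = 1 := by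
  refine inl_pow_eq (Subtype.ext (funext fun i => ?_))
  change (φ.1 i) ^ 2 = 1
  rcases W_cases D (h i) with h | h
  · rw [h, one_pow]
  · rw [h, pow_two, D.ww]

variable [Finite A]

theorem odd_card {H : Subgroup (GG D n)} (h : ∀ a ∈ H, a ^ 3 = 1) : Odd (Nat.card H) := by
  have : Finite (GG D n) := Finite.of_equiv _ (SemidirectProduct.equivProd).symm
  have h1 : IsPGroup 3 H := fun g => ⟨1, by
    apply Subtype.ext
    rw [pow_one, Subgroup.coe_pow, Subgroup.coe_one]
    exact h g.1 g.2⟩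
  have : Fact (Nat.Prime 3) := ⟨Nat.prime_three⟩
  obtain ⟨k, hk⟩ := IsPGroup.iff_card.1 h1
  rw [hk]
  exact Odd.pow (by decide)

theorem two_card {H : Subgroup (GG D n)} (h : ∀ a ∈ H, a ^ 2 = 1) : ∃ k : ℕ, Nat.card H = 2 ^ k := by
  have : Finite (GG D n) := Finite.of_equiv _ (SemidirectProduct.equivProd).symm
  have h1 : IsPGroup 2 H := fun g => ⟨1, by
    apply Subtype.ext
    rw [pow_one, Subgroup.coe_pow, Subgroup.coe_one]
    exact h g.1 g.2⟩
  have : Fact (Nat.Prime 2) := ⟨Nat.prime_two⟩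
  exact IsPGroup.iff_card.1 h1

theorem mul_inv_sg_zero (hn : 0 < n) (φ : TB D n) : (φ * (sg hn (φ.1 0))⁻¹).1 0 = 1 := by
  change φ.1 0 * ((sg (D := D) hn (φ.1 0)).1 0)⁻¹ = 1
  rw [sg_zero, mul_inv_cancel]

open SemidirectProduct in
/-- the data of section 0 for the concrete group -/
def dat (hn : 0 < n) : Dat (GG D n) n where
  s := sS D n
  w := isg D n hn D.w
  v := isg D n hn D.v
  x := isg D n hn D.x
  N := IN D n (PB D n (Subgroup.zpowers D.x))
  N' := IN D n (PB' D n (Subgroup.zpowers D.x))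
  W' := IN D n (PB' D n (Subgroup.zpowers D.w))
  npos := hn
  ord := order_s
  w1 := by
    intro h
    apply D.w1
    rw [isg_apply, ← map_one inl] at h
    have h1 := inl_injective h
    rw [← sg_zero (D := D) hn D.w, h1]
    rfl
  ww := by rw [← map_mul, D.ww, map_one]
  vv := by rw [← map_mul, D.vv, map_one]
  vw := by rw [← map_mul, ← map_mul, D.vw]
  zw := by rw [isg_z, D.τw]
  zv := by rw [isg_z, D.τv, map_mul]
  x3 := by rw [← map_pow, D.x3, map_one]
  xw := by rw [← map_mul, ← map_mul, D.xw]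
  xv := by rw [← map_mul, ← map_mul, ← map_mul, D.xv]
  xN := inl_mem_IN (sg_mem hn (C_stable D) (Subgroup.mem_zpowers _))
  N'N := by
    intro g hg
    obtain ⟨φ, hφ, rfl⟩ := mem_IN.1 hg
    exact inl_mem_IN hφ.1
  comN := by
    intro a ha b hb
    obtain ⟨φ, hφ, rfl⟩ := mem_IN.1 ha
    obtain ⟨ψ, hψ, rfl⟩ := mem_IN.1 hb
    rw [← map_mul, ← map_mul]
    congr 1
    apply Subtype.ext
    funext i
    exact C_comm D (hφ i) (hψ i)
  expN := by
    intro a ha
    obtain ⟨φ, hφ, rfl⟩ := mem_IN.1 ha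
    exact PB_pow hφ
  zN := by
    intro a ha
    obtain ⟨φ, hφ, rfl⟩ := mem_IN.1 ha
    rw [pow_mul_inl, ← map_inv]
    congr 2
    apply Subtype.ext
    funext i
    rw [tr_n_apply, C_τ D (hφ i)]
    rfl
  sN := by
    intro a ha
    obtain ⟨φ, hφ, rfl⟩ := mem_IN.1 ha
    have h := conj_pow (D := D) (n := n) 1 φ
    rw [pow_one] at h
    rw [h]
    exact inl_mem_IN fun i => hφ _
  N'x := by
    intro a ha
    obtain ⟨φ, hφ, rfl⟩ := mem_IN.1 ha
    obtain ⟨k, hk⟩ := C_nat D (hφ 0)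
    refine ⟨inl (φ * (sg hn (φ.1 0))⁻¹), inl_mem_IN ⟨?_, mul_inv_sg_zero hn φ⟩, k, ?_⟩
    · exact fun i => Subgroup.mul_mem _ (hφ i) (Subgroup.inv_mem _
        (sg_mem hn (C_stable D) (hφ 0) i))
    · rw [← map_pow, ← hk, isg_apply, ← map_mul, inv_mul_cancel_right]
  comN' := by
    intro a ha
    obtain ⟨φ, hφ, rfl⟩ := mem_IN.1 ha
    exact ⟨isg_comm0 hn hφ.2 _, isg_comm0 hn hφ.2 _⟩
  N's := by
    intro j h0 hj a ha
    obtain ⟨φ, hφ, rfl⟩ := mem_IN.1 ha
    refine ⟨inl (φ * (sg hn (φ.1 0))⁻¹), inl_mem_IN ⟨?_, mul_inv_sg_zero hn φ⟩,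
      inl (tr D n (-j) (sg hn (φ.1 0))), inl_mem_IN ⟨?_, ?_⟩, ?_⟩
    · exact fun i => Subgroup.mul_mem _ (hφ i) (Subgroup.inv_mem _
        (sg_mem hn (C_stable D) (hφ 0) i))
    · exact fun i => sg_mem hn (C_stable D) (hφ 0) _
    · rw [tr_apply, zero_sub, neg_neg, sg_j hn _ h0 hj]
    · rw [conj_pow]
      have h1 : tr D n j (tr D n (-j) (sg hn (φ.1 0))) = sg hn (φ.1 0) := by
        apply Subtype.ext
        funext i
        rw [tr_apply, tr_apply, sub_neg_eq_add, sub_add_cancel]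
      rw [h1, ← map_mul, inv_mul_cancel_right]
  comW := by
    intro a ha
    obtain ⟨φ, hφ, rfl⟩ := mem_IN.1 ha
    refine ⟨isg_comm0 hn hφ.2 _, isg_comm0 hn hφ.2 _, isg_comm0 hn hφ.2 _, ?_⟩
    · rw [pow_mul_inl]
      congr 2
      apply Subtype.ext
      funext i
      rw [tr_n_apply, W_τ D (hφ.1 i)]
  W's := by
    intro j h0 hj
    rw [isg_apply, conj_pow]
    refine inl_mem_IN ⟨fun i => sg_mem hn (W_stable D) (Subgroup.mem_zpowers _) _, ?_⟩
    rw [tr_apply, zero_sub, sg_neg_j hn _ h0 hj]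
  W'q := by
    classical
    intro a ha
    obtain ⟨φ, hφ, rfl⟩ := mem_IN.1 ha
    have hq0 : (ext D n hn fun i => if φ.1 i = 1 then 1 else D.v).1 0 = 1 := by
      rw [ext_lt hn _ (val_zero_lt hn), if_pos hφ.2]
    refine ⟨inl (ext D n hn fun i => if φ.1 i = 1 then 1 else D.v), isg_comm0 hn hq0 _,
      isg_comm0 hn hq0 _, ?_⟩
    · rw [mul_assoc, pow_mul_inl, ← mul_assoc, ← map_mul]
      congr 2
      apply TB_ext hn
      intro i hi
      change _ = φ.1 i * (tr D n n (ext D n hn fun i => if φ.1 i = 1 then 1 else D.v)).1 i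
      rw [tr_n_apply, ext_lt hn _ hi]
      rcases W_cases D (hφ.1 i) with h | h
      · rw [h, if_pos rfl, map_one, mul_one]
      · rw [h, if_neg D.w1, D.τv, ← mul_assoc, D.ww, one_mul]
  oddN := by
    refine odd_card ?_
    intro a ha
    obtain ⟨φ, hφ, rfl⟩ := mem_IN.1 ha
    exact PB_pow hφ
  oddN' := by
    refine odd_card ?_
    intro a ha
    obtain ⟨φ, hφ, rfl⟩ := mem_IN.1 ha
    exact PB_pow hφ.1
  cardW := by
    refine two_card ?_
    intro a ha
    obtain ⟨φ, hφ, rfl⟩ := mem_IN.1 ha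
    exact WB_pow hφ.1
  comm := comm_mem_nc hn

/-! ### the alternating group -/

/-- the element `w` -/
def aw : alternatingGroup (Fin 4) :=
  ⟨Equiv.swap 0 1 * Equiv.swap 2 3, Equiv.Perm.mem_alternatingGroup.2 (by decide)⟩

/-- the element `v` -/
def av : alternatingGroup (Fin 4) :=
  ⟨Equiv.swap 0 2 * Equiv.swap 1 3, Equiv.Perm.mem_alternatingGroup.2 (by decide)⟩

/-- the element `x` -/
def ax : alternatingGroup (Fin 4) :=
  ⟨Equiv.swap 0 1 * Equiv.swap 0 2, Equiv.Perm.mem_alternatingGroup.2 (by decide)⟩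

/-- the automorphism -/
def aτ : MulAut (alternatingGroup (Fin 4)) := MulAut.conjNormal (Equiv.swap (0 : Fin 4) 1)

theorem aτ_apply (a : alternatingGroup (Fin 4)) :
    ((aτ a : alternatingGroup (Fin 4)) : Equiv.Perm (Fin 4)) =
      Equiv.swap (0 : Fin 4) 1 * (a : Equiv.Perm (Fin 4)) * Equiv.swap (0 : Fin 4) 1 := by
  unfold aτ
  rw [MulAut.conjNormal_apply, Equiv.swap_inv]

/-- `A₄` -/
def base : Base (alternatingGroup (Fin 4)) where
  τ := aτ
  w := aw
  v := av
  x := ax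
  ττ := fun a => by
    apply Subtype.ext
    rw [aτ_apply, aτ_apply]
    simp only [← mul_assoc, Equiv.swap_mul_self, one_mul]
    rw [mul_assoc, Equiv.swap_mul_self, mul_one]
  w1 := by decide
  ww := by decide
  vv := by decide
  vw := by decide
  τw := by
    apply Subtype.ext
    rw [aτ_apply]
    decide
  τv := by
    apply Subtype.ext
    rw [aτ_apply]
    decide
  x3 := by decide
  xw := by decide
  xv := by decide
  τx := by
    apply Subtype.ext
    rw [aτ_apply]
    decide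
  gen := by
    intro a
    have h : ∃ k : Fin 3, ∃ c ∈ ([1, aw, av, aw * av] : List (alternatingGroup (Fin 4))),
        a = ax ^ (k : ℕ) * c := by
      revert a
      decide
    obtain ⟨k, c, hc, h⟩ := h
    exact ⟨k, c, by simpa using hc, h⟩

theorem exists_dat (n : ℕ) (hn : 2 ≤ n) :
    ∃ (G : Type) (_ : Group G) (_ : Fintype G), Nonempty (Dat G n) := by
  have hn' : 0 < n := by omega
  have : NeZero (2 * n) := ⟨by omega⟩
  have : Finite (GG base n) := Finite.of_equiv _ (SemidirectProduct.equivProd).symm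
  exact ⟨GG base n, inferInstance, Fintype.ofFinite _, ⟨dat hn'⟩⟩

end Grp

end Pool.Agent.Bovdi
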