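import Pool.Agent.Lib.MP_0d8f30_al.Mg.G008
import Pool.Agent.Lib.MP_0d8f30_al.BV.Grp
import Pool.Agent.Lib.MP_0d8f30_al.Mg.G007

set_option autoImplicit false

/-! # Task Main: the final statement -/

namespace Pool.Agent.Bovdi

open Finset

/-- `n = 4096 = 16 · 2^8`, `r = 4`, order `2^9` -/
theorem main : ∃ (G : Type) (_ : Group G) (_ : Fintype G) (_ : DecidableEq G) (u : (MonoidAlgebra ℤ G)ˣ),
    orderOf u = 2 ^ 9 ∧ ∑ g : G, (u : MonoidAlgebra ℤ G).coeff g = 1 ∧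
      ∑ g ∈ univ.filter (fun g : G => orderOf g = 2), (u : MonoidAlgebra ℤ G).coeff g = 8 := by
  classical
  obtain ⟨G, iG, iF, ⟨D⟩⟩ := Grp.exists_dat 4096 (by norm_num)
  obtain ⟨W0, Wp, Wm, Y1, Y2, h0, hp, hm, h1, h2, t0, tp, tm⟩ := exists_mats
  obtain ⟨u, hu, hE⟩ := D.exists_unit 16 8 4 (by norm_num) (by norm_num) (by norm_num) W0 Wp Wm Y1 Y2
    h0 hp hm h1 h2 (fun k => by simpa using t0 k) (fun k => by simpa using tp k)
    (fun k => by simpa using tm k)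
  obtain ⟨c1, c2⟩ := D.counterexample 16 8 4 (by norm_num) (by norm_num) (u : MonoidAlgebra ℤ G) hE
  refine ⟨G, iG, iF, inferInstance, u, hu, c1, ?_⟩
  rw [← Finset.sum_congr (Finset.filter_congr_decidable _ _ _) (fun _ _ => rfl), c2]
  norm_num

end Pool.Agent.Bovdi
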