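import Pool.Agent.Lib.MP_0d8f30_al.Mg.G008
import Pool.Agent.Lib.MP_0d8f30_al.BV.Grp
import Pool.Agent.Lib.MP_0d8f30_al.Mg.G007

set_option autoImplicit false

/-! # All sums of coefficients of the counterexample -/

namespace Pool.Agent.Bovdi

open Finset

variable {G : Type} [Group G] [Fintype G] {n : ℕ} (D : Dat G n)

theorem own_vz_sq : (D.v * D.s ^ n) * (D.v * D.s ^ n) = D.w :=
  calc D.v * D.s ^ n * (D.v * D.s ^ n) = D.v * (D.s ^ n * D.v) * D.s ^ n := by
        simp only [mul_assoc]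
    _ = D.v * (D.w * D.v * D.s ^ n) * D.s ^ n := by rw [D.zv]
    _ = (D.v * D.w) * D.v * (D.s ^ n * D.s ^ n) := by simp only [mul_assoc]
    _ = (D.w * D.v) * D.v * (D.s ^ n * D.s ^ n) := by rw [D.vw]
    _ = D.w * (D.v * D.v) * (D.s ^ n * D.s ^ n) := by simp only [mul_assoc]
    _ = D.w := by rw [D.vv, fin_s2n, mul_one, mul_one]

theorem own_order_vz : orderOf (D.v * D.s ^ n) = 4 := by
  have h2 : (D.v * D.s ^ n) ^ 2 = D.w := by rw [pow_two, own_vz_sq]
  have h4 : (D.v * D.s ^ n) ^ 2 ^ (1 + 1) = 1 := by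
    rw [show 2 ^ (1 + 1) = 2 * 2 by norm_num, pow_mul, h2, pow_two, D.ww]
  have := orderOf_eq_prime_pow (x := D.v * D.s ^ n) (p := 2) (n := 1)
    (by rw [pow_one, h2]; exact D.w1) h4
  simpa using this

theorem own_order_s (h m : ℕ) (h0 : 0 < h) (hn : n = h * 2 ^ m) : orderOf (D.s ^ h) = 2 ^ (m + 1) := by
  rw [orderOf_pow_of_dvd h0.ne' (by rw [D.ord, hn]; exact ⟨2 * 2 ^ m, by ring⟩), D.ord, hn]
  rw [show 2 * (h * 2 ^ m) = 2 ^ (m + 1) * h by ring]
  exact Nat.mul_div_cancel _ h0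

/-- all sums over the elements of given order -/
theorem Dat.sums (h m r : ℕ) (h0 : 0 < h) (hn : n = h * 2 ^ m) (hm : 2 ≤ m) (u : MonoidAlgebra ℤ G)
    (hu : Eqv (toQ G u) (el (D.s ^ h) + (2 * (r : ℚ)) • (D.z - el (D.v * D.s ^ n)))) (k : ℕ) :
    ∑ g ∈ univ.filter (fun g : G => orderOf g = k), u.coeff g =
      if k = 2 then 2 * (r : ℤ) else if k = 4 then -(2 * (r : ℤ)) else if k = 2 ^ (m + 1) then 1 else 0 := by
  classical
  have hS : ∀ g ∈ univ.filter (fun g : G => orderOf g = k), ∀ c : G,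
      c * g * c⁻¹ ∈ univ.filter (fun g : G => orderOf g = k) := by
    intro g hg c
    rw [Finset.mem_filter] at hg ⊢
    refine ⟨Finset.mem_univ _, ?_⟩
    have h1 : orderOf (c * g * c⁻¹) = orderOf g :=
      orderOf_injective (MulAut.conj c).toMonoidHom (MulAut.conj c).injective g
    rw [h1]
    exact hg.2
  have hz : D.z = el (D.s ^ n) := rfl
  rw [hz] at hu
  have k2 := Eqv.sum_coeff hu _ hS
  rw [fin_sum_rhs] at k2
  simp only [toQ_apply, Finset.mem_filter, Finset.mem_univ, true_and] at k2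
  rw [own_order_s D h m h0 hn, fin_order_z, own_order_vz] at k2
  have h8 : (8 : ℕ) ≤ 2 ^ (m + 1) := by
    calc (8 : ℕ) = 2 ^ 3 := by norm_num
      _ ≤ 2 ^ (m + 1) := Nat.pow_le_pow_right (by norm_num) (by omega)
  have key : ((∑ g ∈ univ.filter (fun g : G => orderOf g = k), u.coeff g : ℤ) : ℚ) =
      ((if k = 2 then 2 * (r : ℤ) else if k = 4 then -(2 * (r : ℤ)) else
        if k = 2 ^ (m + 1) then 1 else 0 : ℤ) : ℚ) := by
    rw [Int.cast_sum]
    refine k2.trans ?_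
    by_cases e1 : k = 2
    · subst e1
      rw [if_neg (by omega), if_pos rfl, if_neg (by norm_num), if_pos rfl]
      push_cast; ring
    · by_cases e2 : k = 4
      · subst e2
        rw [if_neg (by omega), if_neg (by norm_num), if_pos rfl, if_neg e1, if_pos rfl]
        push_cast; ring
      · rw [if_neg (Ne.symm e1), if_neg (Ne.symm e2), if_neg e1, if_neg e2]
        by_cases e3 : k = 2 ^ (m + 1)
        · rw [if_pos e3, if_pos e3.symm]; push_cast; ring
        · rw [if_neg e3, if_neg (Ne.symm e3)]; push_cast; ring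
  exact_mod_cast key

theorem own : ∃ (G : Type) (_ : Group G) (_ : Fintype G) (u : (MonoidAlgebra ℤ G)ˣ),
    orderOf u = 2 ^ 9 ∧ ∑ g : G, (u : MonoidAlgebra ℤ G).coeff g = 1 ∧
      ∀ k : ℕ, ∑ g ∈ univ.filter (fun g : G => orderOf g = k), (u : MonoidAlgebra ℤ G).coeff g =
        if k = 2 then 8 else if k = 4 then -8 else if k = 512 then 1 else 0 := by
  classical
  obtain ⟨G, iG, iF, ⟨D⟩⟩ := Grp.exists_dat 4096 (by norm_num)
  obtain ⟨W0, Wp, Wm, Y1, Y2, h0, hp, hm, h1, h2, t0, tp, tm⟩ := exists_mats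
  obtain ⟨u, hu, hE⟩ := D.exists_unit 16 8 4 (by norm_num) (by norm_num) (by norm_num) W0 Wp Wm Y1 Y2
    h0 hp hm h1 h2 (fun k => by simpa using t0 k) (fun k => by simpa using tp k)
    (fun k => by simpa using tm k)
  obtain ⟨c1, -⟩ := D.counterexample 16 8 4 (by norm_num) (by norm_num) (u : MonoidAlgebra ℤ G) hE
  refine ⟨G, iG, iF, u, hu, c1, fun k => ?_⟩
  have := D.sums 16 8 4 (by norm_num) (by norm_num) (by norm_num) (u : MonoidAlgebra ℤ G) hE k
  rw [this]
  norm_num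

end Pool.Agent.Bovdi
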