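import Pool.Agent.Lib.MP_0d8f30_al.Mg.G007
import Pool.Agent.Lib.MP_0d8f30_al.Mg.G004

set_option autoImplicit false

/-! # Task P3: the matrix calculus `Φ_κ(X) = ∑ X_ij s^i κ s^-j` -/

namespace Pool.Agent.Bovdi

open Finset

variable {G : Type} [Group G] {n : ℕ} (D : Dat G n)

theorem Dat.phi_zero_left (X : Matrix (Fin n) (Fin n) ℚ) : D.Phi 0 X = 0 := by
  simp [Dat.Phi]
theorem Dat.phi_add_left (κ κ' : MonoidAlgebra ℚ G) (X : Matrix (Fin n) (Fin n) ℚ) :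
    D.Phi (κ + κ') X = D.Phi κ X + D.Phi κ' X := by
  simp only [Dat.Phi, mul_add, add_mul, smul_add, Finset.sum_add_distrib]
theorem Dat.phi_smul_left (q : ℚ) (κ : MonoidAlgebra ℚ G) (X : Matrix (Fin n) (Fin n) ℚ) :
    D.Phi (q • κ) X = q • D.Phi κ X := by
  simp only [Dat.Phi, mul_smul_comm, smul_mul_assoc, Finset.smul_sum]
  refine Finset.sum_congr rfl fun i _ => Finset.sum_congr rfl fun j _ => ?_
  rw [smul_comm]
theorem Dat.phi_add_right (κ : MonoidAlgebra ℚ G) (X Y : Matrix (Fin n) (Fin n) ℚ) :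
    D.Phi κ (X + Y) = D.Phi κ X + D.Phi κ Y := by
  simp only [Dat.Phi, Matrix.add_apply, add_smul, Finset.sum_add_distrib]
theorem Dat.phi_smul_right (q : ℚ) (κ : MonoidAlgebra ℚ G) (X : Matrix (Fin n) (Fin n) ℚ) :
    D.Phi κ (q • X) = q • D.Phi κ X := by
  simp only [Dat.Phi, Matrix.smul_apply, smul_eq_mul, mul_smul, Finset.smul_sum]
theorem Dat.phi_one (κ : MonoidAlgebra ℚ G) :
    D.Phi κ 1 = ∑ j ∈ range n, el (D.s ^ j) * κ * el (D.s ^ j)⁻¹ := by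
  rw [Finset.sum_range]
  unfold Dat.Phi
  refine Finset.sum_congr rfl fun i _ => ?_
  rw [Finset.sum_eq_single i]
  · rw [Matrix.one_apply_eq, one_smul]
  · intro j _ hj
    rw [Matrix.one_apply_ne (Ne.symm hj), zero_smul]
  · intro h; exact absurd (Finset.mem_univ i) h

variable [Fintype G]

theorem Dat.phi_f_one : D.Phi D.f 1 = D.eT := by
  rw [D.phi_one]; rfl

private theorem p3_mid (κ κ' : MonoidAlgebra ℚ G) (h : κ * D.f = κ) (h' : D.f * κ' = κ')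
    (j k : Fin n) (hjk : j ≠ k) :
    κ * (el (D.s ^ (j : ℕ))⁻¹ * el (D.s ^ (k : ℕ))) * κ' = 0 := by
  calc κ * (el (D.s ^ (j : ℕ))⁻¹ * el (D.s ^ (k : ℕ))) * κ'
      = (κ * D.f) * (el (D.s ^ (j : ℕ))⁻¹ * el (D.s ^ (k : ℕ))) * (D.f * κ') := by rw [h, h']
    _ = κ * (D.f * (el (D.s ^ (j : ℕ))⁻¹ * el (D.s ^ (k : ℕ))) * D.f) * κ' := by
        simp only [mul_assoc]
    _ = 0 := by rw [D.f_ij_f j k hjk, mul_zero, zero_mul]

omit [Fintype G] in
private theorem p3_inv_el (g : G) : (el g⁻¹ : MonoidAlgebra ℚ G) * el g = 1 := by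
  rw [← map_mul, inv_mul_cancel, map_one]

/-- `κ s^(k-j) κ' = κ f s^(k-j) f κ' = 0` for `j ≠ k` (`f_ij_f`) -/
theorem Dat.phi_mul (κ κ' : MonoidAlgebra ℚ G) (h : κ * D.f = κ) (h' : D.f * κ' = κ')
    (X Y : Matrix (Fin n) (Fin n) ℚ) : D.Phi κ X * D.Phi κ' Y = D.Phi (κ * κ') (X * Y) := by
  have step : ∀ i l : Fin n,
      (∑ j : Fin n, X i j • (el (D.s ^ (i : ℕ)) * κ * el (D.s ^ (j : ℕ))⁻¹)) *
        (∑ k : Fin n, Y k l • (el (D.s ^ (k : ℕ)) * κ' * el (D.s ^ (l : ℕ))⁻¹)) =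
      (X * Y) i l • (el (D.s ^ (i : ℕ)) * (κ * κ') * el (D.s ^ (l : ℕ))⁻¹) := by
    intro i l
    rw [Finset.sum_mul, Matrix.mul_apply, Finset.sum_smul]
    refine Finset.sum_congr rfl fun j _ => ?_
    rw [Finset.mul_sum, Finset.sum_eq_single j]
    · rw [smul_mul_assoc, mul_smul_comm, smul_smul]
      congr 1
      calc el (D.s ^ (i : ℕ)) * κ * el (D.s ^ (j : ℕ))⁻¹ *
            (el (D.s ^ (j : ℕ)) * κ' * el (D.s ^ (l : ℕ))⁻¹)
          = el (D.s ^ (i : ℕ)) * κ * (el (D.s ^ (j : ℕ))⁻¹ * el (D.s ^ (j : ℕ))) * κ' *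
              el (D.s ^ (l : ℕ))⁻¹ := by simp only [mul_assoc]
        _ = _ := by rw [p3_inv_el, mul_one]; simp only [mul_assoc]
    · intro k _ hk
      rw [smul_mul_assoc, mul_smul_comm]
      have : el (D.s ^ (i : ℕ)) * κ * el (D.s ^ (j : ℕ))⁻¹ *
            (el (D.s ^ (k : ℕ)) * κ' * el (D.s ^ (l : ℕ))⁻¹)
          = el (D.s ^ (i : ℕ)) * (κ * (el (D.s ^ (j : ℕ))⁻¹ * el (D.s ^ (k : ℕ))) * κ') *
              el (D.s ^ (l : ℕ))⁻¹ := by simp only [mul_assoc]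
      rw [this, p3_mid D κ κ' h h' j k (Ne.symm hk), mul_zero, zero_mul, smul_zero, smul_zero]
    · intro hj; exact absurd (Finset.mem_univ j) hj
  unfold Dat.Phi
  rw [Finset.sum_mul]
  refine Finset.sum_congr rfl fun i _ => ?_
  rw [Finset.sum_comm (f := fun k l => Y k l • (el (D.s ^ (k : ℕ)) * κ' * el (D.s ^ (l : ℕ))⁻¹)),
    Finset.mul_sum]
  exact Finset.sum_congr rfl fun l _ => step i l

/-- diagonal terms: `s^i κ s^-i ~ κ`; off diagonal: `s^i κ s^-j ~ κ s^-j s^i`, `κ = f κ f`, `~ f κ f s^(i-j) f = 0` -/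
theorem Dat.phi_eqv (κ : MonoidAlgebra ℚ G) (h : κ * D.f = κ) (h' : D.f * κ = κ)
    (X : Matrix (Fin n) (Fin n) ℚ) : Eqv (D.Phi κ X) (X.trace • κ) := by
  have e : X.trace • κ = ∑ i : Fin n, ∑ j : Fin n, (if i = j then X i j • κ else 0) := by
    rw [Matrix.trace, Finset.sum_smul]
    refine Finset.sum_congr rfl fun i _ => ?_
    rw [Finset.sum_ite_eq Finset.univ i (fun j => X i j • κ), if_pos (Finset.mem_univ i)]
    rfl
  rw [e]
  unfold Dat.Phi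
  refine Eqv.sum _ fun i _ => Eqv.sum _ fun j _ => ?_
  by_cases hij : i = j
  · subst hij
    rw [if_pos rfl]
    exact Eqv.smul _ (Eqv.el_conj _ _)
  · rw [if_neg hij]
    have h0 : Eqv (el (D.s ^ (i : ℕ)) * κ * el (D.s ^ (j : ℕ))⁻¹) 0 := by
      have h1 : Eqv (el (D.s ^ (i : ℕ)) * κ * el (D.s ^ (j : ℕ))⁻¹)
          (κ * (el (D.s ^ (j : ℕ))⁻¹ * el (D.s ^ (i : ℕ)))) := by
        have := Eqv.mul_comm (el (D.s ^ (i : ℕ))) (κ * el (D.s ^ (j : ℕ))⁻¹)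
        simpa only [mul_assoc] using this
      refine h1.trans ?_
      have h2 : κ * (el (D.s ^ (j : ℕ))⁻¹ * el (D.s ^ (i : ℕ))) =
          D.f * (κ * (el (D.s ^ (j : ℕ))⁻¹ * el (D.s ^ (i : ℕ)))) := by
        rw [← mul_assoc D.f, h']
      rw [h2]
      refine Eqv.idem_zero _ _ D.f_idem ?_
      rw [← h2]
      exact p3_mid D κ D.f h D.f_idem j i (Ne.symm hij)
    have := Eqv.smul (X i j) h0
    rwa [smul_zero] at this

theorem Dat.eT_idem : D.eT * D.eT = D.eT := by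
  rw [← D.phi_f_one, D.phi_mul D.f D.f D.f_idem D.f_idem, D.f_idem, mul_one]

private theorem p3_s_eT : el D.s * D.eT = D.eT * el D.s := by
  have hterm : ∀ j : ℕ, el D.s * (el (D.s ^ j) * D.f * el (D.s ^ j)⁻¹) =
      (el (D.s ^ (j + 1)) * D.f * el (D.s ^ (j + 1))⁻¹) * el D.s := by
    intro j
    have e1 : (el (D.s ^ (j + 1))⁻¹ : MonoidAlgebra ℚ G) * el D.s = el (D.s ^ j)⁻¹ := by
      rw [← map_mul]; congr 1
      rw [pow_succ' D.s j, mul_inv_rev, mul_assoc, inv_mul_cancel, mul_one]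
    have e2 : (el (D.s ^ (j + 1)) : MonoidAlgebra ℚ G) = el D.s * el (D.s ^ j) := by
      rw [← map_mul, ← pow_succ']
    rw [mul_assoc _ (el (D.s ^ (j + 1))⁻¹) (el D.s), e1, e2]
    simp only [mul_assoc]
  have hshift : ∑ j ∈ range n, el (D.s ^ (j + 1)) * D.f * el (D.s ^ (j + 1))⁻¹ =
      ∑ j ∈ range n, el (D.s ^ j) * D.f * el (D.s ^ j)⁻¹ := by
    have h1 := Finset.sum_range_succ' (fun j => el (D.s ^ j) * D.f * el (D.s ^ j)⁻¹) n
    have h2 := Finset.sum_range_succ (fun j => el (D.s ^ j) * D.f * el (D.s ^ j)⁻¹) n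
    have h3 := D.conj_add_n 0
    rw [zero_add] at h3
    rw [h2, h3] at h1
    exact (add_right_cancel h1).symm
  unfold Dat.eT
  rw [Finset.mul_sum, Finset.sum_congr rfl (fun j _ => hterm j), ← Finset.sum_mul, hshift]

/-- `e_Θ` commutes with `s` (shift the summation, `conj_add_n`) -/
theorem Dat.s_eT (j : ℕ) : el (D.s ^ j) * D.eT = D.eT * el (D.s ^ j) := by
  rw [map_pow]
  have h : Commute (el D.s : MonoidAlgebra ℚ G) D.eT := p3_s_eT D
  exact (h.pow_left j).eq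

end Pool.Agent.Bovdi
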