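import Pool.Agent.Lib.MP_0d8f30_al.BV.R3

set_option autoImplicit false

/-! # Task R4: the idempotents `κ₀ = kz, κ₊ = kp, κ₋ = km`

`f` commutes with `aV` and `δ`; `aV² = aV`, `δ² = 1 - aV`, `aV δ = δ aV = 0`. -/

namespace Pool.Agent.Bovdi

open Finset

variable {G : Type} [Group G] [Fintype G] {n : ℕ} (D : Dat G n)

private theorem r4_mul {A : Type*} [Ring A] (f p q : A) (hf : f * f = f) (hp : f * p = p * f) :
    (f * p) * (f * q) = f * (p * q) := by
  rw [mul_assoc, ← mul_assoc p f q, ← hp, mul_assoc f p q, ← mul_assoc f f, hf]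

private theorem r4_fmul {A : Type*} [Ring A] (f p : A) (hf : f * f = f) : f * (f * p) = f * p := by
  rw [← mul_assoc, hf]

private theorem r4_mulf {A : Type*} [Ring A] (f p : A) (hf : f * f = f) (hp : f * p = p * f) :
    (f * p) * f = f * p := by
  rw [mul_assoc, ← hp, ← mul_assoc, hf]

private theorem r4_kp : D.kp = D.f * ((1 / 2 : ℚ) • (1 - D.aV + D.del)) := by
  rw [Dat.kp, mul_smul_comm]

private theorem r4_km : D.km = D.f * ((1 / 2 : ℚ) • (1 - D.aV - D.del)) := by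
  rw [Dat.km, mul_smul_comm]

private theorem r4_kz : D.kz = D.f * D.aV := rfl

private theorem r4_cp : D.f * ((1 / 2 : ℚ) • (1 - D.aV + D.del)) =
    ((1 / 2 : ℚ) • (1 - D.aV + D.del)) * D.f := by
  rw [mul_smul_comm, smul_mul_assoc, mul_add, mul_sub, D.f_aV, D.f_del, add_mul, sub_mul, one_mul, mul_one]

private theorem r4_cm : D.f * ((1 / 2 : ℚ) • (1 - D.aV - D.del)) =
    ((1 / 2 : ℚ) • (1 - D.aV - D.del)) * D.f := by
  rw [mul_smul_comm, smul_mul_assoc, mul_sub, mul_sub, D.f_aV, D.f_del, sub_mul, sub_mul, one_mul, mul_one]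

theorem Dat.k_sum : D.kz + D.kp + D.km = D.f := by
  rw [r4_kz, r4_kp, r4_km, ← mul_add, ← mul_add]
  have h : D.aV + (1 / 2 : ℚ) • (1 - D.aV + D.del) + (1 / 2 : ℚ) • (1 - D.aV - D.del) = 1 := by
    module
  rw [h, mul_one]

theorem Dat.kp_sub_km : D.kp - D.km = D.f * D.del := by
  rw [r4_kp, r4_km, ← mul_sub]
  congr 1
  module

theorem Dat.kz_kz : D.kz * D.kz = D.kz := by
  rw [r4_kz, r4_mul _ _ _ D.f_idem D.f_aV, D.aV_idem]

theorem Dat.kp_kp : D.kp * D.kp = D.kp := by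
  rw [r4_kp, r4_mul _ _ _ D.f_idem (r4_cp D)]
  congr 1
  rw [smul_mul_smul_comm]
  simp only [mul_add, add_mul, mul_sub, sub_mul, one_mul, mul_one, D.aV_idem, D.aV_del, D.del_aV, D.del_sq]
  module

theorem Dat.km_km : D.km * D.km = D.km := by
  rw [r4_km, r4_mul _ _ _ D.f_idem (r4_cm D)]
  congr 1
  rw [smul_mul_smul_comm]
  simp only [mul_add, add_mul, mul_sub, sub_mul, one_mul, mul_one, D.aV_idem, D.aV_del, D.del_aV, D.del_sq]
  module

theorem Dat.kz_kp : D.kz * D.kp = 0 := by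
  rw [r4_kz, r4_kp, r4_mul _ _ _ D.f_idem D.f_aV, mul_smul_comm]
  simp only [mul_add, mul_sub, mul_one, D.aV_idem, D.aV_del]
  simp

theorem Dat.kp_kz : D.kp * D.kz = 0 := by
  rw [r4_kz, r4_kp, r4_mul _ _ _ D.f_idem (r4_cp D), smul_mul_assoc]
  simp only [add_mul, sub_mul, one_mul, D.aV_idem, D.del_aV]
  simp

theorem Dat.kz_km : D.kz * D.km = 0 := by
  rw [r4_kz, r4_km, r4_mul _ _ _ D.f_idem D.f_aV, mul_smul_comm]
  simp only [mul_sub, mul_one, D.aV_idem, D.aV_del]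
  simp

theorem Dat.km_kz : D.km * D.kz = 0 := by
  rw [r4_kz, r4_km, r4_mul _ _ _ D.f_idem (r4_cm D), smul_mul_assoc]
  simp only [sub_mul, one_mul, D.aV_idem, D.del_aV]
  simp

theorem Dat.kp_km : D.kp * D.km = 0 := by
  rw [r4_kp, r4_km, r4_mul _ _ _ D.f_idem (r4_cp D), smul_mul_smul_comm]
  have h : (1 - D.aV + D.del) * (1 - D.aV - D.del) = 0 := by
    simp only [add_mul, mul_sub, sub_mul, one_mul, mul_one, D.aV_idem, D.aV_del, D.del_aV, D.del_sq]
    abel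
  rw [h, smul_zero, mul_zero]

theorem Dat.km_kp : D.km * D.kp = 0 := by
  rw [r4_kp, r4_km, r4_mul _ _ _ D.f_idem (r4_cm D), smul_mul_smul_comm]
  simp only [mul_add, add_mul, mul_sub, sub_mul, one_mul, mul_one, D.aV_idem, D.aV_del, D.del_aV, D.del_sq]
  simp

theorem Dat.f_kz : D.f * D.kz = D.kz := by
  rw [r4_kz, r4_fmul _ _ D.f_idem]

theorem Dat.kz_f : D.kz * D.f = D.kz := by
  rw [r4_kz, r4_mulf _ _ D.f_idem D.f_aV]

theorem Dat.f_kp : D.f * D.kp = D.kp := by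
  rw [r4_kp, r4_fmul _ _ D.f_idem]

theorem Dat.kp_f : D.kp * D.f = D.kp := by
  rw [r4_kp, r4_mulf _ _ D.f_idem (r4_cp D)]

theorem Dat.f_km : D.f * D.km = D.km := by
  rw [r4_km, r4_fmul _ _ D.f_idem]

theorem Dat.km_f : D.km * D.f = D.km := by
  rw [r4_km, r4_mulf _ _ D.f_idem (r4_cm D)]

end Pool.Agent.Bovdi
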