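import Pool.Agent.Lib.MP_0d8f30_al.BV.P3
import Pool.Agent.Lib.MP_0d8f30_al.BV.R4
import Pool.Agent.Lib.MP_0d8f30_al.BV.A3

set_option autoImplicit false

/-! # Task P4: the 2-adic form: powers and integrality -/

namespace Pool.Agent.Bovdi

open Finset

variable {G : Type} [Group G] [Fintype G] {n : ℕ} (D : Dat G n)

/-- the block part of `u₂` -/
noncomputable def Dat.blk (A B C : Matrix (Fin n) (Fin n) ℚ) : MonoidAlgebra ℚ G :=
  D.Phi D.kz A + D.Phi D.kp B + D.Phi D.km C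

theorem Dat.u2_eq (h : ℕ) (A B C : Matrix (Fin n) (Fin n) ℚ) :
    D.u2 h A B C = el (D.s ^ h) * (1 - D.eT) + D.blk A B C := rfl
/-- `phi_mul` and the table of products of R4 -/
theorem Dat.blk_mul (A B C A' B' C' : Matrix (Fin n) (Fin n) ℚ) :
    D.blk A B C * D.blk A' B' C' = D.blk (A * A') (B * B') (C * C') := by
  unfold Dat.blk
  have z : ∀ X, D.Phi (0 : MonoidAlgebra ℚ G) X = 0 := fun X => D.phi_zero_left X
  rw [add_mul, add_mul, mul_add, mul_add, mul_add, mul_add, mul_add, mul_add,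
    D.phi_mul D.kz D.kz D.kz_f D.f_kz, D.phi_mul D.kz D.kp D.kz_f D.f_kp,
    D.phi_mul D.kz D.km D.kz_f D.f_km, D.phi_mul D.kp D.kz D.kp_f D.f_kz,
    D.phi_mul D.kp D.kp D.kp_f D.f_kp, D.phi_mul D.kp D.km D.kp_f D.f_km,
    D.phi_mul D.km D.kz D.km_f D.f_kz, D.phi_mul D.km D.kp D.km_f D.f_kp,
    D.phi_mul D.km D.km D.km_f D.f_km, D.kz_kz, D.kz_kp, D.kz_km, D.kp_kz, D.kp_kp, D.kp_km,
    D.km_kz, D.km_kp, D.km_km, z, z, z, z, z, z]
  simp only [add_zero, zero_add]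
theorem Dat.blk_one : D.blk 1 1 1 = D.eT := by
  unfold Dat.blk
  rw [← D.phi_add_left, ← D.phi_add_left, D.k_sum, D.phi_f_one]
theorem Dat.eT_blk (A B C : Matrix (Fin n) (Fin n) ℚ) : D.eT * D.blk A B C = D.blk A B C := by
  rw [← D.blk_one, D.blk_mul, one_mul, one_mul, one_mul]
theorem Dat.blk_eT (A B C : Matrix (Fin n) (Fin n) ℚ) : D.blk A B C * D.eT = D.blk A B C := by
  rw [← D.blk_one, D.blk_mul, mul_one, mul_one, mul_one]

theorem Dat.u2_pow (h : ℕ) (A B C : Matrix (Fin n) (Fin n) ℚ) (k : ℕ) :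
    (D.u2 h A B C) ^ k = el (D.s ^ (h * k)) * (1 - D.eT) + D.blk (A ^ k) (B ^ k) (C ^ k) := by
  induction k with
  | zero =>
    rw [pow_zero, pow_zero, pow_zero, pow_zero, D.blk_one, mul_zero, pow_zero, map_one, one_mul,
      sub_add_cancel]
  | succ k ih =>
    have hc : (1 - D.eT) * el (D.s ^ h) = el (D.s ^ h) * (1 - D.eT) := by
      rw [sub_mul, mul_sub, one_mul, mul_one, D.s_eT]
    have hi : (1 - D.eT) * (1 - D.eT) = 1 - D.eT := by
      rw [sub_mul, mul_sub, mul_sub, D.eT_idem]; simp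
    have hl : (1 - D.eT) * D.blk A B C = 0 := by
      rw [sub_mul, D.eT_blk, one_mul, sub_self]
    have hr : D.blk (A ^ k) (B ^ k) (C ^ k) * (1 - D.eT) = 0 := by
      rw [mul_sub, D.blk_eT, mul_one, sub_self]
    have e1 : el (D.s ^ (h * k)) * (1 - D.eT) * (el (D.s ^ h) * (1 - D.eT)) =
        el (D.s ^ (h * (k + 1))) * (1 - D.eT) := by
      calc el (D.s ^ (h * k)) * (1 - D.eT) * (el (D.s ^ h) * (1 - D.eT))
          = el (D.s ^ (h * k)) * ((1 - D.eT) * el (D.s ^ h)) * (1 - D.eT) := by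
            simp only [mul_assoc]
        _ = (el (D.s ^ (h * k)) * el (D.s ^ h)) * ((1 - D.eT) * (1 - D.eT)) := by
            rw [hc]; simp only [mul_assoc]
        _ = _ := by rw [hi, ← map_mul, ← pow_add]; rfl
    have e2 : el (D.s ^ (h * k)) * (1 - D.eT) * D.blk A B C = 0 := by
      rw [mul_assoc, hl, mul_zero]
    have e3 : D.blk (A ^ k) (B ^ k) (C ^ k) * (el (D.s ^ h) * (1 - D.eT)) = 0 := by
      rw [← hc, ← mul_assoc, hr, zero_mul]
    rw [pow_succ, ih, D.u2_eq, add_mul, mul_add, mul_add, e1, e2, e3, D.blk_mul, add_zero,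
      zero_add, ← pow_succ, ← pow_succ, ← pow_succ]

theorem Dat.u2_pow_eq_one (h o : ℕ) (ho : h * o = 2 * n) (A B C : Matrix (Fin n) (Fin n) ℚ)
    (hA : A ^ o = 1) (hB : B ^ o = 1) (hC : C ^ o = 1) : (D.u2 h A B C) ^ o = 1 := by
  rw [D.u2_pow, ho, D.s_pow_two_n, hA, hB, hC, D.blk_one, map_one, one_mul, sub_add_cancel]

omit [Fintype G] in
private theorem p4_four_aV : Int2 ((4 : ℚ) • D.aV) := by
  have e : (4 : ℚ) • D.aV = 1 + el D.w + el D.v + el (D.w * D.v) := by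
    unfold Dat.aV
    rw [smul_smul]; norm_num
  rw [e]
  exact int2_add (int2_add (int2_add int2_one (int2_el _)) (int2_el _)) (int2_el _)

omit [Fintype G] in
private theorem p4_four_lam : Int2 ((4 : ℚ) • D.lam) := by
  have e : (4 : ℚ) • D.lam = 1 + el D.w - el D.v - el (D.w * D.v) := by
    unfold Dat.lam
    rw [smul_smul]; norm_num
  rw [e]
  exact int2_sub (int2_sub (int2_add int2_one (int2_el _)) (int2_el _)) (int2_el _)

private theorem p4_four_del : Int2 ((4 : ℚ) • D.del) := by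
  have e : (4 : ℚ) • D.del =
      ∑ k ∈ range 3, el (D.x ^ k) * (((4 : ℚ) • D.lam) * D.z) * el (D.x ^ k)⁻¹ := by
    unfold Dat.del
    rw [Finset.smul_sum]
    refine Finset.sum_congr rfl fun k _ => ?_
    simp only [smul_mul_assoc, mul_smul_comm]
  rw [e]
  exact int2_sum _ _ fun k _ => int2_mul (int2_mul (int2_el _)
    (int2_mul (p4_four_lam D) (int2_el _))) (int2_el _)

omit [Fintype G] in
private theorem p4_four : Int2 ((4 : ℚ) • (1 : MonoidAlgebra ℚ G)) := by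
  have := int2_zsmul (G := G) 4 int2_one
  simpa using this

/-- `8 κ_± = 4 f (1 - aV ± δ)` and `4 aV`, `4 δ`, are integral, `f` is `Int2` -/
theorem Dat.int2_f : Int2 D.f := int2_sub (int2_avg _ D.oddN') (int2_avg _ D.oddN)
theorem Dat.int2_kp : Int2 ((8 : ℚ) • D.kp) := by
  have e : (8 : ℚ) • D.kp =
      D.f * ((4 : ℚ) • (1 : MonoidAlgebra ℚ G) - (4 : ℚ) • D.aV + (4 : ℚ) • D.del) := by
    unfold Dat.kp
    rw [smul_smul, ← smul_sub, ← smul_add, mul_smul_comm]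
    norm_num
  rw [e]
  exact int2_mul D.int2_f (int2_add (int2_sub p4_four (p4_four_aV D)) (p4_four_del D))
theorem Dat.int2_km : Int2 ((8 : ℚ) • D.km) := by
  have e : (8 : ℚ) • D.km =
      D.f * ((4 : ℚ) • (1 : MonoidAlgebra ℚ G) - (4 : ℚ) • D.aV - (4 : ℚ) • D.del) := by
    unfold Dat.km
    rw [smul_smul, ← smul_sub, ← smul_sub, mul_smul_comm]
    norm_num
  rw [e]
  exact int2_mul D.int2_f (int2_sub (int2_sub p4_four (p4_four_aV D)) (p4_four_del D))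
theorem Dat.int2_phi (κ : MonoidAlgebra ℚ G) (h : Int2 κ) (X : Matrix (Fin n) (Fin n) ℤ) :
    Int2 (D.Phi κ (X.map (Int.cast : ℤ → ℚ))) := by
  unfold Dat.Phi
  refine int2_sum _ _ fun i _ => int2_sum _ _ fun j _ => ?_
  rw [Matrix.map_apply]
  exact int2_zsmul _ (int2_mul (int2_mul (int2_el _) h) (int2_el _))

private theorem p4_map_add (W Y : Matrix (Fin n) (Fin n) ℤ) :
    (W + (8 : ℤ) • Y).map (Int.cast : ℤ → ℚ) =
      W.map (Int.cast : ℤ → ℚ) + (8 : ℚ) • Y.map (Int.cast : ℤ → ℚ) := by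
  ext i j
  simp only [Matrix.map_apply, Matrix.add_apply, Matrix.smul_apply, smul_eq_mul, Int.cast_add,
    Int.cast_mul, Int.cast_ofNat]

private theorem p4_regroup (W Y₁ Y₂ : Matrix (Fin n) (Fin n) ℚ) :
    D.blk W (W + (8 : ℚ) • Y₁) (W + (8 : ℚ) • Y₂) =
      D.Phi D.f W + D.Phi ((8 : ℚ) • D.kp) Y₁ + D.Phi ((8 : ℚ) • D.km) Y₂ := by
  unfold Dat.blk
  rw [D.phi_add_right, D.phi_add_right, D.phi_smul_right, D.phi_smul_right,
    D.phi_smul_left, D.phi_smul_left, ← D.k_sum, D.phi_add_left, D.phi_add_left]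
  generalize D.Phi D.kz W = a
  generalize D.Phi D.kp W = b
  generalize D.Phi D.km W = c
  generalize (8 : ℚ) • D.Phi D.kp Y₁ = d
  generalize (8 : ℚ) • D.Phi D.km Y₂ = e
  abel

/-- `Φ_{κ₀}(W) + Φ_{κ₊}(W + 8Y₁) + Φ_{κ₋}(W + 8Y₂) = Φ_f(W) + Φ_{8κ₊}(Y₁) + Φ_{8κ₋}(Y₂)` -/
theorem Dat.int2_u2 (h : ℕ) (W Wp Wm Y₁ Y₂ : Matrix (Fin n) (Fin n) ℤ)
    (h1 : Wp = W + (8 : ℤ) • Y₁) (h2 : Wm = W + (8 : ℤ) • Y₂) :
    Int2 (D.u2 h (W.map (Int.cast : ℤ → ℚ)) (Wp.map (Int.cast : ℤ → ℚ)) (Wm.map (Int.cast : ℤ → ℚ))) := by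
  have e : D.u2 h (W.map (Int.cast : ℤ → ℚ)) (Wp.map (Int.cast : ℤ → ℚ))
        (Wm.map (Int.cast : ℤ → ℚ)) =
      el (D.s ^ h) * (1 - D.eT) + (D.Phi D.f (W.map (Int.cast : ℤ → ℚ)) +
        D.Phi ((8 : ℚ) • D.kp) (Y₁.map (Int.cast : ℤ → ℚ)) +
        D.Phi ((8 : ℚ) • D.km) (Y₂.map (Int.cast : ℤ → ℚ))) := by
    rw [D.u2_eq, h1, h2, p4_map_add, p4_map_add]
    refine congrArg (fun t => el (D.s ^ h) * (1 - D.eT) + t) ?_
    exact p4_regroup D _ _ _
  have hT : Int2 D.eT := by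
    have := D.int2_phi D.f D.int2_f 1
    rwa [Matrix.map_one _ Int.cast_zero Int.cast_one, D.phi_f_one] at this
  rw [e]
  exact int2_add (int2_mul (int2_el _) (int2_sub int2_one hT))
    (int2_add (int2_add (D.int2_phi _ D.int2_f _) (D.int2_phi _ D.int2_kp _))
      (D.int2_phi _ D.int2_km _))

end Pool.Agent.Bovdi
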