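import Pool.Agent.Lib.MP_0d8f30_al.Mg.G003

set_option autoImplicit false

/-! # Task X2: `E_± = (1/o) ∑ (± s₀)^i`, the idempotents `a`, `b` and the powers of `u₃`

Throughout `h * o = 2 * n`, `o` even, `s₀ = s ^ h`. -/

namespace Pool.Agent.Bovdi

open Finset

variable {G : Type} [Group G] [Fintype G] {n : ℕ} (D : Dat G n)

private theorem x2_zero {A : Type} [AddCommGroup A] [Module ℚ A] (X : A) (h : X = -X) : X = 0 := by
  have h1 : (2 : ℚ) • X = 0 := by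
    rw [two_smul]
    nth_rewrite 1 [h]
    exact neg_add_cancel X
  have h2 := congrArg (fun y => (1 / 2 : ℚ) • y) h1
  simp only [smul_zero, smul_smul] at h2
  norm_num at h2
  exact h2

private theorem x2_opos {n h o : ℕ} (hn : 0 < n) (ho : h * o = 2 * n) : (o : ℚ) ≠ 0 := by
  have h1 : o ≠ 0 := by
    rintro rfl
    omega
  exact_mod_cast h1

theorem Dat.s_Eb (h o : ℕ) (ho : h * o = 2 * n) (he : Even o) (ε : ℚ) (hε : ε * ε = 1) :
    el (D.s ^ h) * D.Eb h o ε = ε • D.Eb h o ε := by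
  have hf : ∀ i : ℕ, el (D.s ^ h) * (ε ^ i • el (D.s ^ (h * i))) =
      ε • (ε ^ (i + 1) • el (D.s ^ (h * (i + 1)))) := by
    intro i
    rw [mul_smul_comm, ← map_mul, ← pow_add, smul_smul]
    have e1 : ε * ε ^ (i + 1) = ε ^ i := by
      rw [pow_succ, mul_comm (ε ^ i) ε, ← mul_assoc, hε, one_mul]
    have e2 : h + h * i = h * (i + 1) := by ring
    rw [e1, e2]
  have hsum : ∑ i ∈ range o, ε ^ (i + 1) • el (D.s ^ (h * (i + 1))) =
      ∑ i ∈ range o, ε ^ i • el (D.s ^ (h * i)) := by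
    have h1 := Finset.sum_range_succ' (fun i => ε ^ i • el (D.s ^ (h * i))) o
    have h2 := Finset.sum_range_succ (fun i => ε ^ i • el (D.s ^ (h * i))) o
    have h3 : ε ^ o • el (D.s ^ (h * o)) = ε ^ 0 • el (D.s ^ (h * 0)) := by
      have e1 : ε ^ o = 1 := by
        obtain ⟨k, rfl⟩ := he
        rw [pow_add, ← mul_pow, hε, one_pow]
      rw [e1, ho, D.s_pow_two_n, pow_zero, mul_zero, pow_zero]
    rw [h2, h3] at h1
    exact (add_right_cancel h1).symm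
  rw [Dat.Eb, mul_smul_comm, Finset.mul_sum, Finset.sum_congr rfl fun i _ => hf i,
    ← Finset.smul_sum, hsum, smul_comm]

private theorem Dat.x2_comm (h o : ℕ) (ε : ℚ) (y : MonoidAlgebra ℚ G)
    (hy : Commute (el (D.s ^ h)) y) : Commute (D.Eb h o ε) y := by
  rw [Dat.Eb]
  apply Commute.smul_left
  apply Commute.sum_left
  intro i _
  apply Commute.smul_left
  rw [pow_mul, map_pow]
  exact hy.pow_left i
theorem Dat.Eb_s (h o : ℕ) (ho : h * o = 2 * n) (he : Even o) (ε : ℚ) (hε : ε * ε = 1) :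
    D.Eb h o ε * el (D.s ^ h) = ε • D.Eb h o ε := by
  rw [(D.x2_comm h o ε _ (Commute.refl _)).eq]
  exact D.s_Eb h o ho he ε hε

private theorem Dat.x2_pow_Eb (h o : ℕ) (ho : h * o = 2 * n) (he : Even o) (ε : ℚ)
    (hε : ε * ε = 1) (i : ℕ) : el (D.s ^ (h * i)) * D.Eb h o ε = ε ^ i • D.Eb h o ε := by
  induction i with
  | zero => rw [mul_zero, pow_zero, map_one, one_mul, pow_zero, one_smul]
  | succ i ih =>
    have e2 : h * (i + 1) = h * i + h := by ring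
    rw [e2, pow_add, map_mul, mul_assoc, D.s_Eb h o ho he ε hε, mul_smul_comm, ih, smul_smul,
      pow_succ, mul_comm]
theorem Dat.Eb_idem (h o : ℕ) (ho : h * o = 2 * n) (he : Even o) (ε : ℚ) (hε : ε * ε = 1) :
    D.Eb h o ε * D.Eb h o ε = D.Eb h o ε := by
  have h1 : ∀ i ∈ range o, (ε ^ i • el (D.s ^ (h * i))) * D.Eb h o ε = D.Eb h o ε := by
    intro i _
    rw [smul_mul_assoc, D.x2_pow_Eb h o ho he ε hε, smul_smul, ← mul_pow, hε, one_pow, one_smul]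
  have h2 : D.Eb h o ε = (1 / (o : ℚ)) • ∑ i ∈ range o, ε ^ i • el (D.s ^ (h * i)) := rfl
  nth_rewrite 1 [h2]
  rw [smul_mul_assoc, Finset.sum_mul, Finset.sum_congr rfl h1, Finset.sum_const, card_range,
    ← Nat.cast_smul_eq_nsmul ℚ, smul_smul, one_div, inv_mul_cancel₀ (x2_opos D.npos ho), one_smul]
theorem Dat.Eb_Eb (h o : ℕ) (ho : h * o = 2 * n) (he : Even o) (ε ε' : ℚ) (hε : ε * ε = 1) (h' : ε' = -ε) :
    D.Eb h o ε * D.Eb h o ε' = 0 := by
  subst h'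
  have hε' : (-ε) * (-ε) = 1 := by rw [neg_mul_neg, hε]
  have h1 : ε • (D.Eb h o ε * D.Eb h o (-ε)) = (-ε) • (D.Eb h o ε * D.Eb h o (-ε)) := by
    rw [← smul_mul_assoc, ← D.Eb_s h o ho he ε hε, mul_assoc, D.s_Eb h o ho he (-ε) hε',
      mul_smul_comm]
  apply x2_zero
  have h2 := congrArg (fun y => ε • y) h1
  simp only [smul_smul, hε, one_smul] at h2
  rw [mul_neg, hε, neg_smul, one_smul] at h2
  exact h2
theorem Dat.Eb_Xi (h o r : ℕ) (ho : h * o = 2 * n) (ε ε' : ℚ) :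
    D.Eb h o ε * D.Xi h r ε' = D.Xi h r ε' * D.Eb h o ε :=
  (D.x2_comm h o ε _ (D.s_Xi h r ⟨o, ho.symm⟩ ε')).eq

theorem Dat.a_idem (h o r : ℕ) (ho : h * o = 2 * n) (he : Even o) : D.a h o r * D.a h o r = D.a h o r := by
  rw [Dat.a, mul_assoc, ← mul_assoc (D.Xi h r 1), ← D.Eb_Xi h o r ho, mul_assoc (D.Eb h o (-1)),
    D.Xi_idem h r 1 (by norm_num), ← mul_assoc, D.Eb_idem h o ho he (-1) (by norm_num)]
theorem Dat.b_idem (h o r : ℕ) (ho : h * o = 2 * n) (he : Even o) : D.b h o r * D.b h o r = D.b h o r := by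
  rw [Dat.b, mul_assoc, ← mul_assoc (D.Xi h r (-1)), ← D.Eb_Xi h o r ho, mul_assoc (D.Eb h o 1),
    D.Xi_idem h r (-1) (by norm_num), ← mul_assoc, D.Eb_idem h o ho he 1 (by norm_num)]
theorem Dat.a_b (h o r : ℕ) (ho : h * o = 2 * n) (he : Even o) : D.a h o r * D.b h o r = 0 := by
  rw [Dat.a, Dat.b, mul_assoc, ← mul_assoc (D.Xi h r 1), ← D.Eb_Xi h o r ho,
    mul_assoc (D.Eb h o 1), ← mul_assoc, D.Eb_Eb h o ho he (-1) 1 (by norm_num) (by norm_num),
    zero_mul]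
theorem Dat.b_a (h o r : ℕ) (ho : h * o = 2 * n) (he : Even o) : D.b h o r * D.a h o r = 0 := by
  rw [Dat.a, Dat.b, mul_assoc, ← mul_assoc (D.Xi h r (-1)), ← D.Eb_Xi h o r ho,
    mul_assoc (D.Eb h o (-1)), ← mul_assoc, D.Eb_Eb h o ho he 1 (-1) (by norm_num) (by norm_num),
    zero_mul]
theorem Dat.s_a (h o r : ℕ) (ho : h * o = 2 * n) (he : Even o) : el (D.s ^ h) * D.a h o r = -D.a h o r := by
  rw [Dat.a, ← mul_assoc, D.s_Eb h o ho he (-1) (by norm_num), neg_smul, one_smul, neg_mul]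
theorem Dat.s_b (h o r : ℕ) (ho : h * o = 2 * n) (he : Even o) : el (D.s ^ h) * D.b h o r = D.b h o r := by
  rw [Dat.b, ← mul_assoc, D.s_Eb h o ho he 1 (by norm_num), one_smul]
theorem Dat.a_s (h o r : ℕ) (ho : h * o = 2 * n) (he : Even o) : D.a h o r * el (D.s ^ h) = -D.a h o r := by
  rw [Dat.a, mul_assoc, ← D.s_Xi h r ⟨o, ho.symm⟩ 1, ← mul_assoc,
    D.Eb_s h o ho he (-1) (by norm_num), neg_smul, one_smul, neg_mul]
theorem Dat.b_s (h o r : ℕ) (ho : h * o = 2 * n) (he : Even o) : D.b h o r * el (D.s ^ h) = D.b h o r := by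
  rw [Dat.b, mul_assoc, ← D.s_Xi h r ⟨o, ho.symm⟩ (-1), ← mul_assoc,
    D.Eb_s h o ho he 1 (by norm_num), one_smul]

private theorem Dat.x2_u3 (h o r : ℕ) (ho : h * o = 2 * n) (he : Even o) :
    D.u3 h o r = el (D.s ^ h) + (2 : ℚ) • D.a h o r - (2 : ℚ) • D.b h o r := by
  rw [Dat.u3, mul_sub, mul_sub, mul_one, mul_smul_comm, mul_smul_comm, D.s_a h o r ho he,
    D.s_b h o r ho he, smul_neg, sub_neg_eq_add]

private theorem Dat.x2_u3_sq (h o r : ℕ) (ho : h * o = 2 * n) (he : Even o) :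
    D.u3 h o r * D.u3 h o r = el (D.s ^ h) * el (D.s ^ h) := by
  rw [D.x2_u3 h o r ho he]
  simp only [two_smul, add_mul, mul_add, sub_mul, mul_sub, D.s_a h o r ho he, D.s_b h o r ho he,
    D.a_s h o r ho he, D.b_s h o r ho he, D.a_idem h o r ho he, D.b_idem h o r ho he,
    D.a_b h o r ho he, D.b_a h o r ho he]
  abel

private theorem Dat.x2_pow_even (h o r : ℕ) (ho : h * o = 2 * n) (he : Even o) (m : ℕ) :
    (D.u3 h o r) ^ (2 * m) = (el (D.s ^ h)) ^ (2 * m) := by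
  rw [pow_mul, pow_mul, pow_two, pow_two, D.x2_u3_sq h o r ho he]

private theorem Dat.x2_pow_a (h o r : ℕ) (ho : h * o = 2 * n) (he : Even o) (m : ℕ) :
    (el (D.s ^ h)) ^ (2 * m) * D.a h o r = D.a h o r := by
  induction m with
  | zero => rw [mul_zero, pow_zero, one_mul]
  | succ m ih =>
    have e : 2 * (m + 1) = 2 * m + 1 + 1 := by ring
    rw [e, pow_succ, pow_succ, mul_assoc, D.s_a h o r ho he, mul_neg, mul_assoc,
      D.s_a h o r ho he, mul_neg, neg_neg, ih]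

private theorem Dat.x2_pow_b (h o r : ℕ) (ho : h * o = 2 * n) (he : Even o) (m : ℕ) :
    (el (D.s ^ h)) ^ m * D.b h o r = D.b h o r := by
  induction m with
  | zero => rw [pow_zero, one_mul]
  | succ m ih => rw [pow_succ, mul_assoc, D.s_b h o r ho he, ih]

/-- even powers of `u₃ = s₀(1 - 2a - 2b)` -/
theorem Dat.u3_pow_even (h o r : ℕ) (ho : h * o = 2 * n) (he : Even o) (k : ℕ) (hk : Even k) :
    (D.u3 h o r) ^ k = el (D.s ^ (h * k)) := by
  obtain ⟨m, rfl⟩ := hk.two_dvd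
  rw [D.x2_pow_even h o r ho he, ← map_pow, ← pow_mul]
theorem Dat.u3_pow_odd (h o r : ℕ) (ho : h * o = 2 * n) (he : Even o) (k : ℕ) (hk : Odd k) :
    (D.u3 h o r) ^ k = el (D.s ^ (h * k)) + (2 : ℚ) • D.a h o r - (2 : ℚ) • D.b h o r := by
  obtain ⟨m, rfl⟩ := hk
  have e : el (D.s ^ (h * (2 * m + 1))) = (el (D.s ^ h)) ^ (2 * m) * el (D.s ^ h) := by
    rw [← pow_succ, ← map_pow, ← pow_mul]
  rw [pow_succ, D.x2_pow_even h o r ho he, D.x2_u3 h o r ho he, mul_sub, mul_add, mul_smul_comm,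
    mul_smul_comm, D.x2_pow_a h o r ho he, D.x2_pow_b h o r ho he, e]
theorem Dat.u3_pow_eq_one (h o r : ℕ) (ho : h * o = 2 * n) (he : Even o) : (D.u3 h o r) ^ o = 1 := by
  rw [D.u3_pow_even h o r ho he o he, ho, D.s_pow_two_n, map_one]

end Pool.Agent.Bovdi
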